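import Pool.Agent.Work.MP_cb6c95_nt.Upper

-- merged part: Pool.Agent.Work.MP_cb6c95_nt.Profile
section
set_option autoImplicit false

open Finset

namespace Pool.Agent.Work.MP_cb6c95_nt

/-- truncated autocorrelation of the renewal sequence -/
noncomputable def cc (T M : ℕ) (j : ℤ) : ℝ := ∑ i ∈ range M, (RV T i * RV T (i + j) - 1)

theorem cc_rec {T : ℕ} (hT : 1 ≤ T) (M : ℕ) {j : ℤ} (hj : 0 ≤ j) :
    T * cc T M (j + 1) = ∑ s ∈ range T, cc T M (j - s) := by
  have hT' : (0 : ℝ) < T := by exact_mod_cast hT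
  unfold cc
  rw [sum_comm, mul_sum]
  refine sum_congr rfl fun i _ => ?_
  rw [← add_assoc, RV_succ T (by omega), sum_sub_distrib, ← mul_sum]
  have : ∀ s ∈ range T, RV T (i + (j - s)) = RV T (i + j - s) := fun s _ => by rw [add_sub_assoc]
  rw [sum_congr rfl this]
  simp only [sum_const, card_range, nsmul_eq_mul]
  field_simp

theorem cc_norm {T : ℕ} (hT : 1 ≤ T) (M : ℕ) :
    ∑ s ∈ range T, ((T : ℝ) - s) * cc T M (-s) = PP T * ∑ i ∈ range M, (RV T i - 1) := by
  unfold cc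
  simp_rw [mul_sum]
  rw [sum_comm]
  refine sum_congr rfl fun i _ => ?_
  have : ∀ s ∈ range T, ((T : ℝ) - s) * (RV T i * RV T (i + -s) - 1) =
      RV T i * (((T : ℝ) - s) * RV T (i - s)) - ((T : ℝ) - s) := fun s _ => by
    rw [← sub_eq_add_neg]; ring
  rw [sum_congr rfl this, sum_sub_distrib, ← mul_sum, RV_ramp hT (by omega), sum_ramp]; ring

theorem cc_sym {T M : ℕ} {e : ℝ} (he1 : e ≤ 1)
    (he : ∀ z : ℤ, (M : ℤ) - T ≤ z → |RV T z - 1| ≤ e) {j : ℕ} (hjT : j ≤ T) (hTM : T ≤ M) :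
    |cc T M (-j) - (cc T M j - j)| ≤ T * (3 * e) := by
  obtain ⟨L, rfl⟩ : ∃ L, M = L + j := ⟨M - j, by omega⟩
  have h1 : cc T (L + j) (-j) = -j + ∑ i ∈ range L, (RV T i * RV T (i + j) - 1) := by
    unfold cc
    rw [add_comm L j, sum_range_add]
    congr 1
    · have : ∀ i ∈ range j, RV T i * RV T (i + -(j : ℤ)) - 1 = -1 := by
        intro i hi
        have := mem_range.1 hi
        rw [RV_neg T (z := i + -(j : ℤ)) (by omega)]; ring
      rw [sum_congr rfl this]; simp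
    · refine sum_congr rfl fun i _ => ?_
      have e1 : (((j + i : ℕ) : ℤ)) + -(j : ℤ) = i := by push_cast; ring
      have e2 : (((j + i : ℕ) : ℤ)) = i + j := by push_cast; ring
      rw [e1, e2]; ring
  have h2 : cc T (L + j) j = ∑ i ∈ range L, (RV T i * RV T (i + j) - 1) +
      ∑ i ∈ range j, (RV T ((L + i : ℕ) : ℤ) * RV T (((L + i : ℕ) : ℤ) + j) - 1) := by
    unfold cc; rw [sum_range_add]
  rw [h1, h2]
  have h3 : |∑ i ∈ range j, (RV T ((L + i : ℕ) : ℤ) * RV T (((L + i : ℕ) : ℤ) + j) - 1)| ≤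
      T * (3 * e) := by
    refine (abs_sum_le_sum_abs _ _).trans ?_
    have he0 : 0 ≤ e := (abs_nonneg _).trans (he (L + j) (by push_cast; omega))
    have : ∀ i ∈ range j, |RV T ((L + i : ℕ) : ℤ) * RV T (((L + i : ℕ) : ℤ) + j) - 1| ≤ 3 * e := by
      intro i _
      have a := abs_le.1 (he ((L + i : ℕ) : ℤ) (by push_cast; omega))
      have b := abs_le.1 (he (((L + i : ℕ) : ℤ) + j) (by push_cast; omega))
      generalize RV T ((L + i : ℕ) : ℤ) = p at *
      generalize RV T (((L + i : ℕ) : ℤ) + j) = q at *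
      rw [abs_le]; constructor <;> linarith only [he0, he1, a, b, mul_nonneg_of_nonpos_of_nonpos (Mathlib.Tactic.Linarith.sub_nonpos_of_le he1) (Mathlib.Tactic.Linarith.sub_nonpos_of_le a.left), mul_nonneg_of_nonpos_of_nonpos (Mathlib.Tactic.Linarith.sub_nonpos_of_le he1) (Mathlib.Tactic.Linarith.sub_nonpos_of_le b.left), mul_nonneg_of_nonpos_of_nonpos (Mathlib.Tactic.Linarith.sub_nonpos_of_le he0) (Mathlib.Tactic.Linarith.sub_nonpos_of_le he0), mul_nonneg_of_nonpos_of_nonpos (Mathlib.Tactic.Linarith.sub_nonpos_of_le a.left) (Mathlib.Tactic.Linarith.sub_nonpos_of_le b.left), mul_nonneg_of_nonpos_of_nonpos (Mathlib.Tactic.Linarith.sub_nonpos_of_le he1) (Mathlib.Tactic.Linarith.sub_nonpos_of_le b.right), mul_nonneg_of_nonpos_of_nonpos (Mathlib.Tactic.Linarith.sub_nonpos_of_le he0) (Mathlib.Tactic.Linarith.sub_nonpos_of_le a.right), mul_nonneg_of_nonpos_of_nonpos (Mathlib.Tactic.Linarith.sub_nonpos_of_le a.left) (Mathlib.Tactic.Linarith.sub_nonpos_of_le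 b.right)]
    refine (sum_le_sum this).trans ?_
    rw [sum_const, card_range, nsmul_eq_mul]
    have : (j : ℝ) ≤ T := by exact_mod_cast hjT
    linarith only [he0, this, mul_nonneg_of_nonpos_of_nonpos (Mathlib.Tactic.Linarith.sub_nonpos_of_le he0) (Mathlib.Tactic.Linarith.sub_nonpos_of_le this)]
  rw [abs_le] at h3 ⊢
  constructor <;> linarith only [h3, h3.1, h3.2]

/-- a stable maximum principle -/
theorem max_principle {T : ℕ} (f : ℕ → ℝ) {η : ℝ} (hη : 0 ≤ η)
    (h : ∀ j < T, T * f (j + 1) ≤ ∑ s ∈ range T, f (Nat.dist j s) + η) :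
    ∀ j ≤ T, f j ≤ f 0 + η := by
  obtain ⟨m, hm, hmax⟩ := exists_max_image (range (T + 1)) f ⟨0, by simp⟩
  have hm0 : f m ≤ f 0 + η := by
    rcases m with _ | j
    · linarith
    · have hj : j < T := by have := mem_range.1 hm; omega
      have h1 := h j hj
      have h2 : f (j + 1) - f (Nat.dist j j) ≤ ∑ s ∈ range T, (f (j + 1) - f (Nat.dist j s)) := by
        refine single_le_sum (f := fun s => f (j + 1) - f (Nat.dist j s)) ?_ (mem_range.2 hj)
        intro s hs
        have hs' := mem_range.1 hs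
        have := hmax (Nat.dist j s) (by simp only [mem_range, Nat.dist]; omega)
        linarith only [this]
      rw [sum_sub_distrib, Nat.dist_self] at h2
      simp only [sum_const, card_range, nsmul_eq_mul] at h2
      linarith
  intro j hj
  exact (hmax j (by simp only [mem_range]; omega)).trans hm0

theorem cc_bound {T M : ℕ} (hT : 1 ≤ T) {e : ℝ} (he0 : 0 ≤ e) (he1 : 40 * (T : ℝ) ^ 2 * e ≤ 1)
    (he : ∀ z : ℤ, (M : ℤ) - T ≤ z → |RV T z - 1| ≤ e) (hTM : T ≤ M) (j : ℕ) :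
    cc T M j ≤ j / 2 + (if j = 0 then PP T / 2 else 0) - 1 / 4 := by
  have hT1 : (1 : ℝ) ≤ T := by exact_mod_cast hT
  have hP := PP_pos hT
  have hTe : 40 * (T * e) ≤ 1 := by (refine le_of_not_gt fun h_nl => ?_; linarith only [h_nl, he1, hT1, mul_nonneg (by linarith : (0 : ℝ) ≤ T) he0, mul_nonneg_of_nonpos_of_nonpos (Mathlib.Tactic.Linarith.sub_nonpos_of_le hT1) (le_of_lt (Mathlib.Tactic.Linarith.sub_neg_of_lt h_nl))])
  have he1' : e ≤ 1 := by (refine le_of_not_gt fun h_nl => ?_; linarith only [h_nl, he1, hT1, mul_nonneg_of_nonpos_of_nonpos (Mathlib.Tactic.Linarith.sub_nonpos_of_le (sq_nonneg ↑T)) (le_of_lt (Mathlib.Tactic.Linarith.sub_neg_of_lt h_nl)), mul_nonneg_of_nonpos_of_nonpos (Mathlib.Tactic.Linarith.sub_nonpos_of_le (Mathlib.Tactic.Linarith.natCast_nonneg ℝ T)) (Mathlib.Tactic.Linarith.sub_nonpos_of_le hT1)])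
  obtain ⟨f, hfc⟩ : ∃ f : ℕ → ℝ,
      ∀ j : ℕ, cc T M j = f j + j / 2 + if j = 0 then PP T / 2 else 0 :=
    ⟨fun j => cc T M j - j / 2 - if j = 0 then PP T / 2 else 0, fun j => by ring⟩
  have hd : ∀ j < T, ∀ s < T, |cc T M ((j : ℤ) - s) - (f (Nat.dist j s) + ((j : ℝ) - s) / 2 +
      if s = j then PP T / 2 else 0)| ≤ T * (3 * e) := by
    intro j hj s hs
    rcases le_total s j with h | h
    · have e1 : (j : ℤ) - s = ((j - s : ℕ) : ℤ) := by omega
      rw [e1, hfc, Nat.dist_eq_sub_of_le_right h, Nat.cast_sub h,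
        if_congr (show j - s = 0 ↔ s = j by omega) rfl rfl, sub_self, abs_zero]
      positivity
    · have e1 : (j : ℤ) - s = -((s - j : ℕ) : ℤ) := by omega
      have := cc_sym he1' he (j := s - j) (by omega) hTM
      have e2 : ((s - j : ℕ) : ℝ) = s - j := Nat.cast_sub h
      rw [hfc (s - j), e2, if_congr (show s - j = 0 ↔ s = j by omega) rfl rfl] at this
      rw [e1, Nat.dist_eq_sub_of_le h]
      convert this using 2; ring
  have hrec : ∀ j < T, |T * f (j + 1) - ∑ s ∈ range T, f (Nat.dist j s)| ≤ T * (T * (3 * e)) := by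
    intro j hj
    have h1 := cc_rec hT M (j := j) (by omega)
    have h2 : T * f (j + 1) - ∑ s ∈ range T, f (Nat.dist j s) =
        ∑ s ∈ range T, (cc T M ((j : ℤ) - s) - (f (Nat.dist j s) + ((j : ℝ) - s) / 2 +
          if s = j then PP T / 2 else 0)) := by
      rw [sum_sub_distrib, ← h1, sum_add_distrib, sum_add_distrib, sum_ite_eq', if_pos (mem_range.2 hj),
        ← sum_div, sum_sub_distrib, sum_id]
      have := hfc (j + 1)
      rw [if_neg (by omega)] at this
      push_cast at this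
      rw [this, PP]; simp; ring
    rw [h2]
    refine (abs_sum_le_sum_abs _ _).trans ?_
    refine (sum_le_sum fun s hs => hd j hj s (mem_range.1 hs)).trans ?_
    simp
  have hη : 0 ≤ (T : ℝ) * (T * (3 * e)) := by positivity
  have hup := max_principle f hη fun j hj => by have := (abs_le.1 (hrec j hj)).2; linarith only [this]
  have hlo := max_principle (fun j => -f j) hη fun j hj => by
    have := (abs_le.1 (hrec j hj)).1
    rw [sum_neg_distrib]; linarith only [this]
  have hK : ∑ i ∈ range M, (RV T i - 1) ≤ (1 + e) * (((T : ℝ) - 1) / 3) := by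
    have h1 := (abs_le.1 (RV_sum_bounds hT (N := M) (by exact_mod_cast hTM)
      (fun z hz => he z (by omega)))).2
    have h2 : ∑ z ∈ Ico (0 : ℤ) M, RV T z = ∑ i ∈ range M, RV T i := by
      symm
      refine sum_bij (fun i _ => (i : ℤ)) ?_ ?_ ?_ ?_
      · intro i hi; simp only [mem_Ico, mem_range] at *; omega
      · intro i _ i' _ h; exact_mod_cast h
      · intro x hx; refine ⟨x.toNat, ?_, ?_⟩ <;> simp only [mem_Ico, mem_range] at * <;> omega
      · intro i _; rfl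
    rw [h2] at h1
    rw [sum_sub_distrib]; simp only [sum_const, card_range, nsmul_eq_mul]
    push_cast at h1; linarith only [h1]
  have hf0 : f 0 + T * (T * (3 * e)) ≤ -1 / 4 := by
    have h1 := cc_norm hT M
    have h2 : ∀ s ∈ range T, ((T : ℝ) - s) * (f 0 - T * (T * (3 * e)) - T * (3 * e)) -
        ((T : ℝ) - s) * s / 2 + (if s = 0 then T * (PP T / 2) else 0) ≤
        ((T : ℝ) - s) * cc T M (-s) := by
      intro s hs
      have hs' := mem_range.1 hs
      have a := (abs_le.1 (hd 0 hT s hs')).1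
      have b := hlo s hs'.le
      have hr : (0 : ℝ) ≤ (T : ℝ) - s := by
        have : (s : ℝ) ≤ T := by exact_mod_cast hs'.le
        linarith only [this]
      simp only [Nat.cast_zero, zero_sub, Nat.dist_zero_left] at a b
      have c : f 0 - T * (T * (3 * e)) - T * (3 * e) - s / 2 + (if s = 0 then PP T / 2 else 0) ≤
        cc T M (-s) := by linarith only [b, a]
      have := mul_le_mul_of_nonneg_left c hr
      split_ifs at this ⊢ with h0
      · subst h0; simp at this ⊢; linarith only [this]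
      · linarith only [this]
    have h3 := sum_le_sum h2
    rw [h1, sum_add_distrib, sum_sub_distrib, ← sum_mul, ← sum_div, sum_ramp, sum_ramp_mul,
      sum_ite_eq', if_pos (mem_range.2 hT)] at h3
    have h4 : PP T * (f 0 - T * (T * (3 * e)) - T * (3 * e) - ((T : ℝ) - 1) / 6 + T / 2) ≤
        PP T * ((1 + e) * (((T : ℝ) - 1) / 3)) := by
      refine le_trans (le_of_eq (by ring)) (h3.trans (mul_le_mul_of_nonneg_left hK hP.le))
    have h5 := le_of_mul_le_mul_left h4 hP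
    linarith only [he0, he1, hTe, h5]
  have hall : ∀ n : ℕ, ∀ j ≤ n, f j ≤ -1 / 4 := by
    intro n
    induction n with
    | zero => intro j hj; have := hup j (by omega); linarith only [hf0, this]
    | succ n ih =>
      intro j hj
      by_cases hjT : j ≤ T
      · have := hup j hjT; linarith only [hf0, this]
      rcases lt_or_eq_of_le hj with h | rfl
      · exact ih j (by omega)
      have h1 := cc_rec hT M (j := n) (by omega)
      have h2 : ∀ s ∈ range T, cc T M ((n : ℤ) - s) ≤ -1 / 4 + n / 2 := by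
        intro s hs
        have hs' := mem_range.1 hs
        have e1 : (n : ℤ) - s = ((n - s : ℕ) : ℤ) := by omega
        rw [e1, hfc, if_neg (by omega), Nat.cast_sub (by omega)]
        have := ih (n - s) (by omega)
        have : (0 : ℝ) ≤ s := by positivity
        linarith
      have h3 := sum_le_sum h2
      rw [← h1] at h3
      simp only [sum_const, card_range, nsmul_eq_mul] at h3
      have h4 := le_of_mul_le_mul_left h3 (by linarith only [hT1])
      have := hfc (n + 1)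
      rw [if_neg (by omega)] at this
      push_cast at this
      linarith only [h4, this]
  have := hall j j le_rfl
  rw [hfc]; linarith only [this]

/-- the truncated boundary profile -/
theorem exists_profile {T : ℕ} (hT : 1 ≤ T) : ∃ (M : ℕ) (u : ℕ → ℝ), (∀ i, 0 ≤ u i) ∧
    (∀ i, u i ≤ T + 1) ∧ (∀ i, M ≤ i → u i = 1) ∧
    ((T : ℝ) - 1) / 3 - 1 ≤ ∑ i ∈ range M, (u i - 1) ∧
    ∀ j : ℕ, ∑ i ∈ range M, (u i * u (i + j) - 1) ≤ j / 2 + if j = 0 then PP T / 2 else 0 := by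
  have hT1 : (1 : ℝ) ≤ T := by exact_mod_cast hT
  obtain ⟨n, hn⟩ : ∃ n : ℕ, ((n : ℝ) + 3) * (1 / 2) ^ n ≤ 1 / (120 * (T : ℝ) ^ 2) := by
    have h1 := tendsto_self_mul_const_pow_of_lt_one (r := (1 / 2 : ℝ)) (by norm_num) (by norm_num)
    have h2 := (tendsto_pow_atTop_nhds_zero_of_lt_one (r := (1 / 2 : ℝ)) (by norm_num)
      (by norm_num)).const_mul 3
    have h3 := h1.add h2
    simp only [mul_zero, add_zero] at h3
    obtain ⟨n, hn⟩ := (h3.eventually (ge_mem_nhds
      (show (0 : ℝ) < 1 / (120 * (T : ℝ) ^ 2) by positivity))).exists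
    exact ⟨n, by linarith only [hn]⟩
  obtain ⟨e, he⟩ : ∃ e : ℝ, e = (1 / 2) ^ n := ⟨_, rfl⟩
  have he0 : 0 < e := by rw [he]; positivity
  rw [← he, le_div_iff₀ (by positivity)] at hn
  have hn0 : (0 : ℝ) ≤ n := by positivity
  have hT2 : (T : ℝ) ≤ (T : ℝ) ^ 2 := by linarith only [hT1, mul_nonneg_of_nonpos_of_nonpos (Mathlib.Tactic.Linarith.sub_nonpos_of_le (Mathlib.Tactic.Linarith.natCast_nonneg ℝ T)) (Mathlib.Tactic.Linarith.sub_nonpos_of_le hT1)]
  have he1 : 40 * (T : ℝ) ^ 2 * e ≤ 1 := by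
    linarith only [hn, hn0, he0, mul_nonneg hn0 (mul_nonneg he0.le (sq_nonneg (T : ℝ))),
      mul_nonneg he0.le (sq_nonneg (T : ℝ)), sq_nonneg ↑T]
  set M := (n + 1) * T + 1 with hM
  have hMz : (M : ℤ) = n * T + T + 1 := by rw [hM]; push_cast; ring
  have hMr : (M : ℝ) = (n + 1) * T + 1 := by rw [hM]; push_cast; ring
  have hTM : T ≤ M := by rw [hM]; linarith only [mul_nonneg_of_nonpos_of_nonpos (Mathlib.Tactic.Linarith.sub_nonpos_of_le (Mathlib.Tactic.Linarith.natCast_nonneg ℤ T)) (Mathlib.Tactic.Linarith.sub_nonpos_of_le (Mathlib.Tactic.Linarith.natCast_nonneg ℤ n))]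
  have hdec : ∀ z : ℤ, (M : ℤ) - T ≤ z → |RV T z - 1| ≤ e := fun z hz => by
    rw [he]; exact RV_decay hT n z (by omega)
  have hVb : ∀ z : ℤ, RV T z ≤ T + 1 := by
    intro z
    by_cases h0 : z = 0
    · rw [h0, RV_zero]; linarith only [hT1]
    · have := (abs_le.1 (RV_base hT z h0)).2; linarith only [hT1, this]
  have hsum : ∑ z ∈ Ico (0 : ℤ) M, RV T z = ∑ i ∈ range M, RV T i := by
    symm
    refine sum_bij (fun i _ => (i : ℤ)) ?_ ?_ ?_ ?_
    · intro i hi; simp only [mem_Ico, mem_range] at *; omega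
    · intro i _ i' _ h; exact_mod_cast h
    · intro x hx; refine ⟨x.toNat, ?_, ?_⟩ <;> simp only [mem_Ico, mem_range] at * <;> omega
    · intro i _; rfl
  have hb := abs_le.1 (RV_sum_bounds hT (N := M) (by exact_mod_cast hTM)
      (fun z hz => hdec z (by omega)))
  rw [hsum] at hb
  push_cast at hb
  have hTe : 40 * (T * e) ≤ 1 := by linarith only [he1, hb, mul_nonneg_of_nonpos_of_nonpos (Mathlib.Tactic.Linarith.sub_nonpos_of_le (Mathlib.Tactic.Linarith.natCast_nonneg ℝ T)) (Mathlib.Tactic.Linarith.sub_nonpos_of_le hb.left), mul_nonneg_of_nonpos_of_nonpos (Mathlib.Tactic.Linarith.sub_nonpos_of_le (Mathlib.Tactic.Linarith.natCast_nonneg ℝ T)) (Mathlib.Tactic.Linarith.sub_nonpos_of_le hb.right)]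
  refine ⟨M, fun i => if i < M then RV T i else 1, ?_, ?_, ?_, ?_, ?_⟩
  · intro i; dsimp only; split_ifs
    · exact RV_nonneg _ _
    · norm_num
  · intro i; dsimp only; split_ifs
    · exact hVb _
    · linarith only [hT1, he0, hb, hTe]
  · intro i hi; simp only [if_neg (not_lt.2 hi)]
  · have : ∀ i ∈ range M, (if i < M then RV T i else 1) - 1 = RV T i - 1 := fun i hi => by
      rw [if_pos (mem_range.1 hi)]
    rw [sum_congr rfl this, sum_sub_distrib]
    simp only [sum_const, card_range, nsmul_eq_mul]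
    linarith only [he0, hb, hTe, hb.1]
  · intro j
    have h1 := cc_bound hT he0.le he1 hdec hTM j
    have h2 : ∀ i ∈ range M, (if i < M then RV T i else 1) *
        (if i + j < M then RV T ((i + j : ℕ) : ℤ) else 1) - 1 ≤
        (RV T i * RV T (i + j) - 1) + e * RV T i := by
      intro i hi
      rw [if_pos (mem_range.1 hi)]
      have h0 := RV_nonneg T i
      split_ifs with h
      · push_cast; linarith only [he0, h0, mul_nonneg_of_nonpos_of_nonpos (le_of_lt (Mathlib.Tactic.Linarith.sub_neg_of_lt he0)) (Mathlib.Tactic.Linarith.sub_nonpos_of_le h0)]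
      · have := (abs_le.1 (hdec (i + j) (by omega))).1
        (refine le_of_not_gt fun h_nl => ?_; linarith only [h_nl, he0, hb, hTe, h0, this, mul_pos_of_neg_of_neg (Mathlib.Tactic.Linarith.sub_neg_of_lt he0) (Mathlib.Tactic.Linarith.sub_neg_of_lt h_nl), mul_nonneg_of_nonpos_of_nonpos (Mathlib.Tactic.Linarith.sub_nonpos_of_le hb.left) (le_of_lt (Mathlib.Tactic.Linarith.sub_neg_of_lt h_nl)), mul_nonneg_of_nonpos_of_nonpos (Mathlib.Tactic.Linarith.sub_nonpos_of_le hb.right) (le_of_lt (Mathlib.Tactic.Linarith.sub_neg_of_lt h_nl)), mul_nonneg_of_nonpos_of_nonpos (Mathlib.Tactic.Linarith.sub_nonpos_of_le hTe) (le_of_lt (Mathlib.Tactic.Linarith.sub_neg_of_lt h_nl)), mul_nonneg_of_nonpos_of_nonpos (Mathlib.Tactic.Linarith.sub_nonpos_of_le h0) (Mathlib.Tactic.Linarith.sub_nonpos_of_le this)])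
    refine (sum_le_sum h2).trans ?_
    rw [sum_add_distrib, ← mul_sum]
    have h3 : ∑ i ∈ range M, RV T i ≤ (n + 3) * T := by linarith only [hT1, he0, hMr, hb, hTe, hb.2]
    have h4 : e * ∑ i ∈ range M, RV T i ≤ 1 / 4 := by
      have := mul_le_mul_of_nonneg_left h3 he0.le
      have h5 : e * ((n + 3) * T) ≤ (n + 3) * e * T ^ 2 := by
        have : 0 ≤ ((n : ℝ) + 3) * e := by positivity
        linarith only [hT2, this, mul_nonneg_of_nonpos_of_nonpos (Mathlib.Tactic.Linarith.sub_nonpos_of_le hT2) (Mathlib.Tactic.Linarith.sub_nonpos_of_le this)]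
      linarith only [hn, he0, hb, hTe, this, h5]
    unfold cc at h1
    linarith only [h1, h4]

end Pool.Agent.Work.MP_cb6c95_nt
end

-- merged part: Pool.Agent.Work.MP_cb6c95_nt.Block
section
set_option autoImplicit false

open Finset

namespace Pool.Agent.Work.MP_cb6c95_nt

theorem sum_range_blocks {β : Type*} [AddCommMonoid β] (f : ℕ → β) (J l : ℕ) :
    ∑ x ∈ range (J * l), f x = ∑ i ∈ range J, ∑ r ∈ range l, f (i * l + r) := by
  induction J with
  | zero => simp
  | succ J ih => rw [Nat.succ_mul, sum_range_add, ih, sum_range_succ]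

theorem block_div {l : ℕ} (i : ℕ) {r : ℕ} (hr : r < l) : (i * l + r) / l = i := by
  rw [add_comm, Nat.add_mul_div_right _ _ (by omega), Nat.div_eq_of_lt hr, zero_add]

theorem block_mod {l : ℕ} (i : ℕ) {r : ℕ} (hr : r < l) : (i * l + r) % l = r := by
  rw [add_comm, Nat.add_mul_mod_self_right, Nat.mod_eq_of_lt hr]

/-- sets with prescribed numbers of points in the blocks -/
def fam (J l : ℕ) (n : ℕ → ℕ) : Finset (Finset ℕ) :=
  (range (J * l)).powerset.filter fun A => ∀ i < J, (A.filter fun x => x / l = i).card = n i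

/-- the `i`-th block -/
def blk (J l i : ℕ) : Finset ℕ := (range (J * l)).filter fun x => x / l = i

theorem mem_fam {J l : ℕ} {n : ℕ → ℕ} {A : Finset ℕ} : A ∈ fam J l n ↔
    A ⊆ range (J * l) ∧ ∀ i < J, (A.filter fun x => x / l = i).card = n i := by
  simp [fam]

theorem card_block_pred (J l : ℕ) {i : ℕ} (hi : i < J) (p : ℕ → Prop) [DecidablePred p] :
    ((range (J * l)).filter fun x => x / l = i ∧ p (x % l)).card = ((range l).filter p).card := by
  rw [card_filter, card_filter, sum_range_blocks, sum_eq_single i]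
  · refine sum_congr rfl fun r hr => ?_
    rw [block_div i (mem_range.1 hr), block_mod i (mem_range.1 hr)]; simp
  · intro j _ hj
    refine sum_eq_zero fun r hr => ?_
    rw [block_div j (mem_range.1 hr)]; simp [hj]
  · intro h; exact absurd (mem_range.2 hi) h

theorem card_blk (J l : ℕ) {i : ℕ} (hi : i < J) : (blk J l i).card = l := by
  have := card_block_pred J l hi (fun _ => True)
  simpa [blk] using this

theorem fam_nonempty {J l : ℕ} {n : ℕ → ℕ} (hn : ∀ i < J, n i ≤ l) : (fam J l n).Nonempty := by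
  refine ⟨(range (J * l)).filter fun x => x % l < n (x / l), mem_fam.2 ⟨filter_subset _ _, ?_⟩⟩
  intro i hi
  rw [filter_filter]
  have h1 := card_block_pred J l hi (fun r => r < n i)
  have h2 : ((range l).filter fun r => r < n i) = range (n i) := by
    ext r; have := hn i hi; simp only [mem_filter, mem_range]; omega
  rw [h2, card_range] at h1
  rw [← h1]
  congr 1
  refine filter_congr fun x _ => ?_
  constructor
  · rintro ⟨a, b⟩; exact ⟨b, b ▸ a⟩
  · rintro ⟨a, b⟩; exact ⟨a ▸ b, a⟩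

theorem div_lt_of_mem {J l x : ℕ} (hx : x ∈ range (J * l)) : x / l < J :=
  Nat.div_lt_of_lt_mul (by rw [mul_comm]; exact mem_range.1 hx)

theorem card_of_mem_fam {J l : ℕ} {n : ℕ → ℕ} {A : Finset ℕ} (hA : A ∈ fam J l n) :
    A.card = ∑ i ∈ range J, n i := by
  obtain ⟨h1, h2⟩ := mem_fam.1 hA
  rw [card_eq_sum_card_fiberwise (f := fun x => x / l) (t := range J)
    (fun x hx => mem_coe.2 (mem_range.2 (div_lt_of_mem (h1 hx))))]
  exact sum_congr rfl fun i hi => h2 i (mem_range.1 hi)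

theorem swap_mem_fam {J l : ℕ} {n : ℕ → ℕ} {A : Finset ℕ} (hA : A ∈ fam J l n) {x y : ℕ}
    (hx : x ∈ range (J * l)) (hy : y ∈ range (J * l)) (hxy : x / l = y / l) :
    A.map (Equiv.swap x y).toEmbedding ∈ fam J l n := by
  obtain ⟨h1, h2⟩ := mem_fam.1 hA
  have hdiv : ∀ z, Equiv.swap x y z / l = z / l := by
    intro z; rw [Equiv.swap_apply_def]; split_ifs with a b
    · rw [a, hxy]
    · rw [b, hxy]
    · rfl
  refine mem_fam.2 ⟨?_, fun i hi => ?_⟩
  · intro z hz
    obtain ⟨a, ha, rfl⟩ := mem_map.1 hz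
    simp only [Equiv.coe_toEmbedding]
    rw [Equiv.swap_apply_def]; split_ifs
    · exact hy
    · exact hx
    · exact h1 ha
  · rw [filter_map, card_map, ← h2 i hi]
    congr 1
    refine filter_congr fun z _ => ?_
    simp only [Function.comp, Equiv.coe_toEmbedding, hdiv]

theorem swap_count_le {J l : ℕ} {n : ℕ → ℕ} {x y : ℕ}
    (hx : x ∈ range (J * l)) (hy : y ∈ range (J * l)) (hxy : x / l = y / l) {T : Finset ℕ}
    (hxT : x ∉ T) (hyT : y ∉ T) :
    ((fam J l n).filter fun A => x ∈ A ∧ T ⊆ A).card ≤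
      ((fam J l n).filter fun A => y ∈ A ∧ T ⊆ A).card := by
  refine card_le_card_of_injOn (fun A => A.map (Equiv.swap x y).toEmbedding) ?_ ?_
  · intro A hA
    simp only [coe_filter, Set.mem_ofPred_eq] at hA ⊢
    refine ⟨swap_mem_fam hA.1 hx hy hxy, mem_map.2 ⟨x, hA.2.1, by simp⟩, fun t ht => ?_⟩
    refine mem_map.2 ⟨t, hA.2.2 ht, ?_⟩
    simp only [Equiv.coe_toEmbedding]
    exact Equiv.swap_apply_of_ne_of_ne (fun h => hxT (h ▸ ht)) (fun h => hyT (h ▸ ht))
  · intro A _ B _ h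
    exact map_injective _ h

theorem avg_count {J l : ℕ} {n : ℕ → ℕ} {x : ℕ} (hx : x ∈ range (J * l)) {T : Finset ℕ}
    (hxT : x ∉ T) (hT : T ⊆ range (J * l)) :
    (l - (T.filter fun t => t / l = x / l).card) *
        ((fam J l n).filter fun A => x ∈ A ∧ T ⊆ A).card =
      ((fam J l n).filter fun A => T ⊆ A).card *
        (n (x / l) - (T.filter fun t => t / l = x / l).card) := by
  have hi := div_lt_of_mem hx
  have h1 : (blk J l (x / l) \ T).card = l - (T.filter fun t => t / l = x / l).card := by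
    rw [card_sdiff, card_blk J l hi]
    congr 2
    ext t; simp only [blk, mem_inter, mem_filter]
    exact ⟨fun h => ⟨h.1, h.2.2⟩, fun h => ⟨h.1, hT h.1, h.2⟩⟩
  have h2 : ∀ y ∈ blk J l (x / l) \ T, ((fam J l n).filter fun A => x ∈ A ∧ T ⊆ A).card =
      ((fam J l n).filter fun A => y ∈ A ∧ T ⊆ A).card := by
    intro y hy
    simp only [blk, mem_sdiff, mem_filter] at hy
    exact le_antisymm (swap_count_le hx hy.1.1 hy.1.2.symm hxT hy.2)
      (swap_count_le hy.1.1 hx hy.1.2 hy.2 hxT)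
  rw [← h1, ← smul_eq_mul, ← sum_const, sum_congr rfl h2, ← smul_eq_mul, ← sum_const]
  simp_rw [card_filter]
  rw [sum_comm, sum_filter]
  refine sum_congr rfl fun A hA => ?_
  obtain ⟨h3, h4⟩ := mem_fam.1 hA
  by_cases hTA : T ⊆ A
  · rw [if_pos hTA, ← card_filter, ← card_filter, ← h4 _ hi, ← card_sdiff_of_subset]
    · congr 1
      ext t; simp only [blk, mem_sdiff, mem_filter]
      constructor
      · rintro ⟨⟨⟨_, b⟩, c⟩, d, _⟩; exact ⟨⟨d, b⟩, fun h => c h.1⟩
      · rintro ⟨⟨a, b⟩, c⟩; exact ⟨⟨⟨h3 a, b⟩, fun h => c ⟨h, b⟩⟩, a, hTA⟩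
    · exact filter_subset_filter _ hTA
  · simp [hTA]

theorem pair_count {J l : ℕ} {n : ℕ → ℕ} (hl : 2 ≤ l) {x y : ℕ} (hx : x ∈ range (J * l))
    (hy : y ∈ range (J * l)) (hxy : x ≠ y) :
    (((fam J l n).filter fun A => x ∈ A ∧ y ∈ A).card : ℝ) = (fam J l n).card *
      if x / l = y / l then ((n (x / l) * (n (x / l) - 1) : ℕ) : ℝ) / (l * (l - 1))
      else ((n (x / l) * n (y / l) : ℕ) : ℝ) / l ^ 2 := by
  have h1 := avg_count (n := n) hx (T := {y}) (by simpa using hxy) (by simpa using hy)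
  have h2 := avg_count (n := n) hy (T := ∅) (by simp) (by simp)
  simp only [singleton_subset_iff, empty_subset, and_true, filter_empty, card_empty, Nat.sub_zero,
    filter_true] at h1 h2
  have hl' : (2 : ℝ) ≤ l := by exact_mod_cast hl
  have h2' : (l : ℝ) * ((fam J l n).filter fun A => y ∈ A).card = (fam J l n).card * n (y / l) := by
    exact_mod_cast h2
  generalize (((fam J l n).filter fun A => x ∈ A ∧ y ∈ A).card) = c2 at *
  generalize (((fam J l n).filter fun A => y ∈ A).card) = c1 at *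
  generalize (fam J l n).card = c0 at *
  split_ifs with h
  · rw [filter_singleton, if_pos h.symm, card_singleton] at h1
    have h1' : ((l : ℝ) - 1) * c2 = c1 * ((n (x / l) - 1 : ℕ) : ℝ) := by
      have : ((l - 1 : ℕ) : ℝ) = l - 1 := by rw [Nat.cast_sub (by omega)]; simp
      rw [← this]; exact_mod_cast h1
    rw [← h] at h2'
    have : (l : ℝ) - 1 ≠ 0 := by linarith only [hl']
    rw [Nat.cast_mul]
    field_simp
    linear_combination (l : ℝ) * h1' + ((n (x / l) - 1 : ℕ) : ℝ) * h2'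
  · rw [filter_singleton, if_neg (fun h' => h h'.symm), card_empty] at h1
    have h1' : (l : ℝ) * c2 = c1 * n (x / l) := by exact_mod_cast h1
    rw [Nat.cast_mul]
    field_simp
    linear_combination (l : ℝ) * h1' + (n (x / l) : ℝ) * h2'

theorem avg_reps {J l : ℕ} {n : ℕ → ℕ} (hl : 2 ≤ l)
    (h0 : ∑ i ∈ range J, n i * (n i - 1) ≤ l - 1)
    (h1 : ∀ j, 1 ≤ j → ∑ i ∈ range (J - j), n i * n (i + j) ≤ l) {d : ℕ} (hd : 1 ≤ d) :
    ∑ A ∈ fam J l n, (reps A d : ℝ) ≤ (fam J l n).card := by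
  have hl' : (2 : ℝ) ≤ l := by exact_mod_cast hl
  set π : ℕ → ℕ → ℝ := fun i j => if i = j then ((n i * (n i - 1) : ℕ) : ℝ) / (l * (l - 1))
      else if j < J then ((n i * n j : ℕ) : ℝ) / l ^ 2 else 0 with hπ
  have e1 : ∑ A ∈ fam J l n, (reps A d : ℝ) = ∑ x ∈ range (J * l),
      (((fam J l n).filter fun A => x ∈ A ∧ x + d ∈ A).card : ℝ) := by
    simp_rw [card_filter]
    push_cast
    rw [sum_comm]
    refine sum_congr rfl fun A hA => ?_
    have : (A.filter fun a => a + d ∈ A) = (range (J * l)).filter fun x => x ∈ A ∧ x + d ∈ A := by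
      ext x; simp only [mem_filter]
      exact ⟨fun h => ⟨(mem_fam.1 hA).1 h.1, h⟩, fun h => h.2⟩
    rw [reps, this, card_filter]; push_cast; rfl
  have e2 : ∀ x ∈ range (J * l), (((fam J l n).filter fun A => x ∈ A ∧ x + d ∈ A).card : ℝ) ≤
      (fam J l n).card * π (x / l) ((x + d) / l) := by
    intro x hx
    by_cases hy : x + d ∈ range (J * l)
    · rw [pair_count hl hx hy (by omega)]
      simp only [hπ, if_pos (div_lt_of_mem hy)]; rfl
    · rw [filter_false_of_mem fun A hA h => hy ((mem_fam.1 hA).1 h.2)]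
      have : 0 ≤ π (x / l) ((x + d) / l) := by
        simp only [hπ]
        have : (0 : ℝ) ≤ (l : ℝ) - 1 := by linarith only [hl']
        split_ifs <;> positivity
      simp only [card_empty, Nat.cast_zero]; positivity
  have e3 : ∀ j, ∑ i ∈ range J, π i (i + j) ≤ 1 / l := by
    intro j
    rcases Nat.eq_zero_or_pos j with rfl | hj
    · simp only [hπ, add_zero, if_true]
      rw [← sum_div, ← Nat.cast_sum, div_le_div_iff₀ (by linarith only [hl', mul_nonneg_of_nonpos_of_nonpos (Mathlib.Tactic.Linarith.sub_nonpos_of_le (Mathlib.Tactic.Linarith.natCast_nonneg ℝ l)) (Mathlib.Tactic.Linarith.sub_nonpos_of_le hl')]) (by linarith only [hl'])]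
      have : ((∑ i ∈ range J, n i * (n i - 1) : ℕ) : ℝ) ≤ l - 1 := by
        have : ((l - 1 : ℕ) : ℝ) = l - 1 := by rw [Nat.cast_sub (by omega)]; simp
        rw [← this]; exact_mod_cast h0
      linarith only [this, mul_nonneg_of_nonpos_of_nonpos (Mathlib.Tactic.Linarith.sub_nonpos_of_le (Mathlib.Tactic.Linarith.natCast_nonneg ℝ l)) (Mathlib.Tactic.Linarith.sub_nonpos_of_le this)]
    · have : ∑ i ∈ range J, π i (i + j) =
          ∑ i ∈ range (J - j), ((n i * n (i + j) : ℕ) : ℝ) / l ^ 2 := by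
        have : range (J - j) = (range J).filter fun i => i + j < J := by
          ext i; simp only [mem_filter, mem_range]; omega
        rw [this, sum_filter]
        refine sum_congr rfl fun i _ => ?_
        simp only [hπ]; rw [if_neg (by omega)]
      rw [this, ← sum_div, ← Nat.cast_sum, div_le_div_iff₀ (by positivity) (by linarith only [hl'])]
      have : ((∑ i ∈ range (J - j), n i * n (i + j) : ℕ) : ℝ) ≤ l := by exact_mod_cast h1 j hj
      linarith only [this, mul_nonneg_of_nonpos_of_nonpos (Mathlib.Tactic.Linarith.sub_nonpos_of_le (Mathlib.Tactic.Linarith.natCast_nonneg ℝ l)) (Mathlib.Tactic.Linarith.sub_nonpos_of_le this)]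
  rw [e1]
  refine (sum_le_sum e2).trans ?_
  rw [← mul_sum, sum_range_blocks, sum_comm]
  refine mul_le_of_le_one_right (by positivity) ?_
  have e4 : ∀ r ∈ range l, ∑ i ∈ range J, π ((i * l + r) / l) ((i * l + r + d) / l) ≤ 1 / l := by
    intro r hr
    refine le_trans (le_of_eq (sum_congr rfl fun i _ => ?_)) (e3 ((r + d) / l))
    rw [block_div i (mem_range.1 hr), add_assoc, add_comm (i * l),
      Nat.add_mul_div_right _ _ (by omega), add_comm]
  refine (sum_le_sum e4).trans ?_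
  simp only [sum_const, card_range, nsmul_eq_mul]
  rw [mul_one_div_cancel (by linarith only [hl'])]

theorem noCertificate_block {J l : ℕ} {n : ℕ → ℕ} (hl : 2 ≤ l) (hn : ∀ i < J, n i ≤ l)
    (h0 : ∑ i ∈ range J, n i * (n i - 1) ≤ l - 1)
    (h1 : ∀ j, 1 ≤ j → ∑ i ∈ range (J - j), n i * n (i + j) ≤ l) :
    NoCertificate (J * l) (∑ i ∈ range J, n i) := by
  intro W hW
  have h : ∑ A ∈ fam J l n, ∑ d ∈ Icc 1 (J * l), W d * (reps A d : ℝ) ≤
      ∑ _A ∈ fam J l n, ∑ d ∈ Icc 1 (J * l), W d := by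
    rw [sum_comm, sum_comm (s := fam J l n)]
    refine sum_le_sum fun d hd => ?_
    rw [← mul_sum, sum_const, nsmul_eq_mul, mul_comm _ (W d)]
    exact mul_le_mul_of_nonneg_left (avg_reps hl h0 h1 (mem_Icc.1 hd).1) (hW d)
  obtain ⟨A, hA, hle⟩ := exists_le_of_sum_le (fam_nonempty hn) h
  refine ⟨A.map (addRightEmbedding 1), ?_, by rw [card_map, card_of_mem_fam hA], ?_⟩
  · intro z hz
    obtain ⟨a, ha, rfl⟩ := mem_map.1 hz
    have := mem_range.1 ((mem_fam.1 hA).1 ha)
    simp only [addRightEmbedding_apply, mem_Icc]; omega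
  · have : ∀ d, reps (A.map (addRightEmbedding 1)) d = reps A d := by
      intro d
      rw [reps, reps, filter_map, card_map]
      congr 1
      refine filter_congr fun a _ => ?_
      simp only [Function.comp, addRightEmbedding_apply, mem_map]
      constructor
      · rintro ⟨b, hb, h⟩
        have : b = a + d := by omega
        exact this ▸ hb
      · intro h; exact ⟨a + d, h, by ring⟩
    simpa only [this] using hle

/-- removing points -/
theorem exists_le_sum_eq (J : ℕ) (n : ℕ → ℕ) {k : ℕ} (hk : k ≤ ∑ i ∈ range J, n i) :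
    ∃ m : ℕ → ℕ, (∀ i, m i ≤ n i) ∧ ∑ i ∈ range J, m i = k := by
  induction J generalizing k with
  | zero => exact ⟨n, fun _ => le_rfl, by simp at hk; simp [hk]⟩
  | succ J ih =>
    rw [sum_range_succ] at hk
    obtain ⟨m, hm, hs⟩ := ih (k := k - min k (n J)) (by omega)
    refine ⟨fun i => if i = J then min k (n J) else m i, fun i => ?_, ?_⟩
    · dsimp only; split_ifs with h
      · rw [h]; exact min_le_right _ _
      · exact hm i
    · rw [sum_range_succ, if_pos rfl, sum_congr rfl fun i hi => if_neg (mem_range.1 hi).ne, hs]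
      omega

theorem noCertificate_block' {J l : ℕ} {n : ℕ → ℕ} (hl : 2 ≤ l) (hn : ∀ i < J, n i ≤ l)
    (h0 : ∑ i ∈ range J, n i * (n i - 1) ≤ l - 1)
    (h1 : ∀ j, 1 ≤ j → ∑ i ∈ range (J - j), n i * n (i + j) ≤ l) {k : ℕ}
    (hk : k ≤ ∑ i ∈ range J, n i) : NoCertificate (J * l) k := by
  obtain ⟨m, hm, rfl⟩ := exists_le_sum_eq J n hk
  refine noCertificate_block hl (fun i hi => (hm i).trans (hn i hi)) (le_trans ?_ h0)
    fun j hj => le_trans ?_ (h1 j hj)
  · exact sum_le_sum fun i _ => Nat.mul_le_mul (hm i) (Nat.sub_le_sub_right (hm i) 1)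
  · exact sum_le_sum fun i _ => Nat.mul_le_mul (hm i) (hm _)

end Pool.Agent.Work.MP_cb6c95_nt
end

-- merged part: Pool.Agent.Work.MP_cb6c95_nt.Lower
section
set_option autoImplicit false

open Finset Filter Topology

namespace Pool.Agent.Work.MP_cb6c95_nt

theorem sum_tail_zero {M L : ℕ} (h : M ≤ L) (f : ℕ → ℝ) (hf : ∀ i, M ≤ i → f i = 0) :
    ∑ i ∈ range L, f i = ∑ i ∈ range M, f i := by
  symm
  refine sum_subset (range_subset_range.2 h) fun i _ hi => hf i ?_
  simpa using hi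

/-- correlations of the two-sided profile -/
theorem two_sided_corr {M J : ℕ} {u : ℕ → ℝ} {B P : ℝ} (hu0 : ∀ i, 0 ≤ u i) (huB : ∀ i, u i ≤ B)
    (hu1 : ∀ i, M ≤ i → u i = 1)
    (hc : ∀ j : ℕ, ∑ i ∈ range M, (u i * u (i + j) - 1) ≤ j / 2 + if j = 0 then P / 2 else 0)
    (hP : 0 ≤ P) (hJ : 2 * M * B ^ 4 ≤ J) (j : ℕ) :
    ∑ i ∈ range (J - j), (u i * u (J - 1 - i)) * (u (i + j) * u (J - 1 - (i + j))) ≤
      J + if j = 0 then P else 0 := by
  have hif : (0 : ℝ) ≤ if j = 0 then P else 0 := by split_ifs <;> linarith only [hP]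
  by_cases hj : j + 2 * M ≤ J
  · have e1 : ∀ i ∈ range (J - j), (u i * u (J - 1 - i)) * (u (i + j) * u (J - 1 - (i + j))) =
        1 + (u i * u (i + j) - 1) + (u (J - j - 1 - i) * u (J - j - 1 - i + j) - 1) := by
      intro i hi
      have hi' := mem_range.1 hi
      rw [show J - j - 1 - i + j = J - 1 - i by omega, show J - j - 1 - i = J - 1 - (i + j) by omega]
      by_cases h : i < M
      · rw [hu1 (J - 1 - i) (by omega), hu1 (J - 1 - (i + j)) (by omega)]; ring
      · rw [hu1 i (by omega), hu1 (i + j) (by omega)]; ring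
    rw [sum_congr rfl e1, sum_add_distrib, sum_add_distrib,
      sum_range_reflect (fun i => u i * u (i + j) - 1) (J - j),
      sum_tail_zero (show M ≤ J - j by omega) (fun i => u i * u (i + j) - 1)
        (fun i hi => by rw [hu1 i hi, hu1 (i + j) (by omega)]; ring)]
    have h1 := hc j
    simp only [sum_const, card_range, nsmul_eq_mul, mul_one]
    rw [Nat.cast_sub (by omega)]
    split_ifs at h1 ⊢ <;> linarith only [h1]
  · have hB : 0 ≤ B := (hu0 0).trans (huB 0)
    have e1 : ∀ i ∈ range (J - j), (u i * u (J - 1 - i)) * (u (i + j) * u (J - 1 - (i + j))) ≤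
        B ^ 4 := by
      intro i _
      calc _ ≤ (B * B) * (B * B) :=
            mul_le_mul (mul_le_mul (huB _) (huB _) (hu0 _) hB)
              (mul_le_mul (huB _) (huB _) (hu0 _) hB) (mul_nonneg (hu0 _) (hu0 _)) (by positivity)
        _ = _ := by ring
    refine (sum_le_sum e1).trans ?_
    simp only [sum_const, card_range, nsmul_eq_mul]
    have h2 : ((J - j : ℕ) : ℝ) ≤ 2 * M := by
      have : J - j ≤ 2 * M := by omega
      exact_mod_cast this
    have := mul_le_mul_of_nonneg_right h2 (show 0 ≤ B ^ 4 by positivity)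
    linarith only [hJ, hif, this]

/-- the block construction from a profile -/
theorem noCertificate_profile {M J w P k : ℕ} {u : ℕ → ℝ} {B g : ℝ} (hu0 : ∀ i, 0 ≤ u i)
    (huB : ∀ i, u i ≤ B) (hu1 : ∀ i, M ≤ i → u i = 1) (hg : g ≤ ∑ i ∈ range M, (u i - 1))
    (hc : ∀ j : ℕ, ∑ i ∈ range M, (u i * u (i + j) - 1) ≤ j / 2 + if j = 0 then (P : ℝ) / 2 else 0)
    (hJ : 2 * M * B ^ 4 ≤ J) (hJM : 2 * M ≤ J) (hJB : B ^ 2 ≤ J) (hJ2 : 2 ≤ J) (hw : 1 ≤ w)
    (hk1 : w ^ 2 * P + 1 ≤ k) (hk2 : (k : ℝ) ≤ w * J + 2 * w * g - 2 * M) :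
    NoCertificate ((w * J) ^ 2) k := by
  obtain ⟨y, hy⟩ : ∃ y : ℕ → ℝ, ∀ i, y i = u i * u (J - 1 - i) := ⟨_, fun _ => rfl⟩
  have hy0 : ∀ i, 0 ≤ y i := fun i => by rw [hy]; exact mul_nonneg (hu0 _) (hu0 _)
  have hB : 0 ≤ B := (hu0 0).trans (huB 0)
  have hyB : ∀ i, y i ≤ B ^ 2 := fun i => by
    rw [hy, sq]; exact mul_le_mul (huB _) (huB _) (hu0 _) hB
  have hcorr : ∀ j, ∑ i ∈ range (J - j), y i * y (i + j) ≤ J + if j = 0 then (P : ℝ) else 0 := by
    intro j
    simp only [hy]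
    exact two_sided_corr hu0 huB hu1 hc (by positivity) hJ j
  obtain ⟨n, hn⟩ : ∃ n : ℕ → ℕ, ∀ i, n i = ⌊(w : ℝ) * y i⌋₊ := ⟨_, fun _ => rfl⟩
  have hw0 : (0 : ℝ) ≤ w := by positivity
  have hw1 : (1 : ℝ) ≤ w := by exact_mod_cast hw
  have hn1 : ∀ i, (n i : ℝ) ≤ w * y i := fun i => by
    rw [hn]; exact Nat.floor_le (mul_nonneg hw0 (hy0 i))
  have hnn : ∀ j, ((∑ i ∈ range (J - j), n i * n (i + j) : ℕ) : ℝ) ≤
      w ^ 2 * (J + if j = 0 then (P : ℝ) else 0) := by
    intro j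
    push_cast
    refine le_trans ?_ (mul_le_mul_of_nonneg_left (hcorr j) (sq_nonneg (w : ℝ)))
    rw [mul_sum]
    refine sum_le_sum fun i _ => ?_
    calc _ ≤ (w * y i) * (w * y (i + j)) :=
          mul_le_mul (hn1 _) (hn1 _) (by positivity) (mul_nonneg hw0 (hy0 i))
      _ = _ := by ring
  have htot : k ≤ ∑ i ∈ range J, n i := by
    have e1 : ∀ i ∈ range J, (w : ℝ) + (w * (u i - 1) - if i < M then 1 else 0) +
        (w * (u (J - 1 - i) - 1) - if J - 1 - i < M then 1 else 0) ≤ n i := by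
      intro i hi
      have hi' := mem_range.1 hi
      have hfl : w * y i - 1 ≤ n i := by
        rw [hn]; exact (Nat.sub_one_lt_floor _).le
      by_cases h : i < M
      · rw [hy, hu1 (J - 1 - i) (by omega)] at hfl
        rw [if_pos h, if_neg (by omega), hu1 (J - 1 - i) (by omega)]
        linarith only [hfl]
      · by_cases h' : J - 1 - i < M
        · rw [hy, hu1 i (by omega)] at hfl
          rw [if_neg h, if_pos h', hu1 i (by omega)]
          linarith only [hfl]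
        · rw [if_neg h, if_neg h', hn, hy, hu1 i (by omega), hu1 (J - 1 - i) (by omega)]
          simp
    have e2 := sum_le_sum e1
    rw [sum_add_distrib, sum_add_distrib,
      sum_range_reflect (fun i => (w : ℝ) * (u i - 1) - if i < M then 1 else 0) J,
      sum_tail_zero (show M ≤ J by omega) (fun i => (w : ℝ) * (u i - 1) - if i < M then 1 else 0)
        (fun i hi => by rw [hu1 i hi, if_neg (by omega)]; ring), sum_sub_distrib, ← mul_sum,
      sum_congr rfl (fun i hi => if_pos (mem_range.1 hi))] at e2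
    simp only [sum_const, card_range, nsmul_eq_mul, mul_one] at e2
    have e3 := mul_le_mul_of_nonneg_left hg hw0
    have : (k : ℝ) ≤ ((∑ i ∈ range J, n i : ℕ) : ℝ) := by push_cast; linarith only [hk2, e2, e3]
    exact_mod_cast this
  rw [show (w * J) ^ 2 = J * (w ^ 2 * J) by ring]
  refine noCertificate_block' ?_ ?_ ?_ ?_ htot
  · have : 1 ≤ w ^ 2 := Nat.one_le_pow _ _ hw
    nlinarith only [this, hJ2]
  · intro i _
    have h1 : (n i : ℝ) ≤ ((w ^ 2 * J : ℕ) : ℝ) := by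
      push_cast
      have h2 : (w : ℝ) * y i ≤ w * J := mul_le_mul_of_nonneg_left ((hyB i).trans hJB) hw0
      have h3 : (w : ℝ) * J ≤ w ^ 2 * J :=
        mul_le_mul_of_nonneg_right (by linarith only [hw1, mul_nonneg_of_nonpos_of_nonpos (Mathlib.Tactic.Linarith.sub_nonpos_of_le (Mathlib.Tactic.Linarith.natCast_nonneg ℝ w)) (Mathlib.Tactic.Linarith.sub_nonpos_of_le hw1)]) (by positivity)
      linarith only [h2, h3, hn1, hn1 i]
    exact_mod_cast h1
  · have h1 := hnn 0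
    rw [if_pos rfl] at h1
    have h2 : ∑ i ∈ range (J - 0), n i * n (i + 0) ≤ w ^ 2 * (J + P) := by exact_mod_cast h1
    have h3 : ∑ i ∈ range J, n i * (n i - 1) + ∑ i ∈ range J, n i =
        ∑ i ∈ range (J - 0), n i * n (i + 0) := by
      rw [← sum_add_distrib]
      refine sum_congr rfl fun i _ => ?_
      rcases h : n i with _ | m
      · simp
      · simp; ring
    rw [mul_add] at h2
    omega
  · intro j hj
    have h1 := hnn j
    rw [if_neg (by omega), add_zero] at h1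
    exact_mod_cast h1

theorem pow_le_pow_left_iff_le_aux {a b : ℝ} (h : a ^ 2 ≤ b ^ 2) (hb : 0 ≤ b) : a ≤ b :=
  (abs_le_of_sq_le_sq' h hb).2

theorem sqrt_ge_eventually (a : ℝ) : ∀ᶠ k : ℕ in atTop, a ≤ √(k : ℝ) :=
  (Real.tendsto_sqrt_atTop.comp tendsto_natCast_atTop_atTop).eventually_ge_atTop a

/-- short configurations that pass every weighted count -/
theorem upper_len {ε : ℝ} (hε : 0 < ε) : ∀ᶠ k : ℕ in atTop,
    ∃ N : ℕ, NoCertificate N k ∧ (N : ℝ) ≤ ((k : ℝ) - (2 * √2 / 3 - ε) * √k) ^ 2 := by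
  obtain ⟨s, hs, hs0, hs1, hs2⟩ : ∃ s : ℝ, s = √2 ∧ s ^ 2 = 2 ∧ 1.4 < s ∧ s < 1.5 := by
    have h2 : (√2 : ℝ) ^ 2 = 2 := Real.sq_sqrt (by norm_num)
    have h0 : (0 : ℝ) ≤ √2 := Real.sqrt_nonneg _
    exact ⟨√2, rfl, h2, by (refine lt_of_not_ge fun h_nl => ?_; linarith only [h_nl, h2, h0, mul_nonneg_of_nonpos_of_nonpos (Mathlib.Tactic.Linarith.sub_nonpos_of_le h0) (Mathlib.Tactic.Linarith.sub_nonpos_of_le h_nl)]), by (refine lt_of_not_ge fun h_nl => ?_; linarith only [h_nl, h2, h0, mul_nonneg_of_nonpos_of_nonpos (Mathlib.Tactic.Linarith.sub_nonpos_of_le h0) (Mathlib.Tactic.Linarith.sub_nonpos_of_le h_nl)])⟩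
  rw [← hs]
  obtain ⟨T, hT6, hTε⟩ : ∃ T : ℕ, 6 ≤ T ∧ 13 / ε ≤ T :=
    ⟨max 6 ⌈13 / ε⌉₊, le_max_left _ _, (Nat.le_ceil _).trans (by exact_mod_cast le_max_right _ _)⟩
  have hT6' : (6 : ℝ) ≤ T := by exact_mod_cast hT6
  rw [div_le_iff₀ hε] at hTε
  obtain ⟨M, u, hu0, huB, hu1, hg, hc⟩ := exists_profile (T := T) (by omega)
  obtain ⟨P, hP⟩ : ∃ P : ℕ, PP T = P := by
    obtain ⟨m, hm⟩ := Nat.even_mul_succ_self T
    refine ⟨m, ?_⟩
    have : (T : ℝ) * (T + 1) = m + m := by exact_mod_cast hm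
    unfold PP; linarith only [this]
  have hP2 : (P : ℝ) = T * (T + 1) / 2 := by rw [← hP]; rfl
  have hP1 : (1 : ℝ) ≤ P := by rw [hP2]; linarith only [hs1, hs2, hT6', mul_nonneg_of_nonpos_of_nonpos (Mathlib.Tactic.Linarith.sub_nonpos_of_le (Mathlib.Tactic.Linarith.natCast_nonneg ℝ T)) (Mathlib.Tactic.Linarith.sub_nonpos_of_le (Mathlib.Tactic.Linarith.natCast_nonneg ℝ T))]
  have hP1' : 1 ≤ P := by exact_mod_cast hP1
  rw [hP] at hc
  obtain ⟨g, hgd⟩ : ∃ g : ℝ, g = ((T : ℝ) - 1) / 3 - 1 := ⟨_, rfl⟩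
  rw [← hgd] at hg
  have hg0 : 0 ≤ 2 * g - 1 := by rw [hgd]; linarith only [hs1, hs2, hT6']
  obtain ⟨J0, hJ0⟩ : ∃ J0 : ℝ, J0 = 2 * M * ((T : ℝ) + 1) ^ 4 + 2 * M + ((T : ℝ) + 1) ^ 2 + 2 :=
    ⟨_, rfl⟩
  have hM0 : (0 : ℝ) ≤ M := by positivity
  have hA0 : (0 : ℝ) ≤ 2 * M * ((T : ℝ) + 1) ^ 4 := by positivity
  have hB0 : (0 : ℝ) ≤ ((T : ℝ) + 1) ^ 2 := by positivity
  filter_upwards [sqrt_ge_eventually (J0 + 2 * g), sqrt_ge_eventually ((2 * g - 1 + 2 * M) * 2 / ε),
    eventually_ge_atTop (P + 1)] with k hk1 hk2 hk3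
  obtain ⟨x, hx, hx2, hx1⟩ : ∃ x : ℝ, x = √k ∧ x ^ 2 = k ∧ 1 ≤ x := by
    have hk1 : (1 : ℝ) ≤ k := by exact_mod_cast (show 1 ≤ k by omega)
    exact ⟨√k, rfl, Real.sq_sqrt (by positivity), Real.one_le_sqrt.2 hk1⟩
  rw [← hx] at hk1 hk2 ⊢
  rw [div_le_iff₀ hε] at hk2
  obtain ⟨w, hw1, hw2, hw3⟩ : ∃ w : ℕ, 1 ≤ w ∧ w ^ 2 * P + 1 ≤ k ∧ k ≤ (w + 1) ^ 2 * P := by
    have hm : 1 ≤ (k - 1) / P := (Nat.le_div_iff_mul_le hP1').2 (by omega)
    refine ⟨Nat.sqrt ((k - 1) / P), Nat.sqrt_pos.2 hm, ?_, ?_⟩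
    · have h1 := Nat.mul_le_mul_right P (Nat.sqrt_le' ((k - 1) / P))
      have h2 := Nat.div_mul_le_self (k - 1) P
      omega
    · have h1 := Nat.mul_le_mul_right P (Nat.succ_le_of_lt (Nat.lt_succ_sqrt' ((k - 1) / P)))
      have h2 := Nat.lt_mul_div_succ (k - 1) hP1'
      rw [mul_comm] at h2
      simp only [Nat.succ_eq_add_one] at h1
      omega
  have hw1' : (1 : ℝ) ≤ w := by exact_mod_cast hw1
  have hwx : (w : ℝ) ≤ x := by
    have h1 : (w : ℝ) ^ 2 * P + 1 ≤ k := by exact_mod_cast hw2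
    have h2 : (w : ℝ) ^ 2 ≤ w ^ 2 * P := le_mul_of_one_le_right (by positivity) hP1
    exact pow_le_pow_left_iff_le_aux (by linarith only [hs1, hs2, hx2, h1, h2]) (by linarith only [hs1, hs2, hT6', hP2, hP1, hgd, hJ0, hA0, hk1])
  have hxw : s * x ≤ (w + 1) * (T + 1) := by
    have h1 : (k : ℝ) ≤ ((w : ℝ) + 1) ^ 2 * P := by exact_mod_cast hw3
    have h2 : (P : ℝ) ≤ ((T : ℝ) + 1) ^ 2 / 2 := by rw [hP2]; linarith only [hs1, hs2, hT6']
    have h3 := mul_le_mul_of_nonneg_left h2 (sq_nonneg ((w : ℝ) + 1))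
    refine pow_le_pow_left_iff_le_aux ?_ (by positivity)
    rw [mul_pow, mul_pow, hs0, hx2]; linarith only [h1, h3]
  obtain ⟨R, hR⟩ : ∃ R : ℝ, R = k - 2 * w * g + 2 * M := ⟨_, rfl⟩
  have hRw : w * J0 ≤ R := by
    have h1 : (w : ℝ) * (J0 + 2 * g) ≤ x * x :=
      (mul_le_mul_of_nonneg_left hk1 (by positivity)).trans
        (mul_le_mul_of_nonneg_right hwx (by linarith only [hs1, hs2, hT6', hP2, hP1, hgd, hJ0, hA0, hk1]))
    rw [hR, ← hx2]; linarith only [h1]
  have hJ00 : 0 ≤ J0 := by rw [hJ0]; positivity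
  have hR0 : 0 ≤ R := le_trans (by positivity) hRw
  obtain ⟨J, hJ1, hJ2⟩ : ∃ J : ℕ, R / w ≤ J ∧ (J : ℝ) < R / w + 1 :=
    ⟨⌈R / w⌉₊, Nat.le_ceil _, Nat.ceil_lt_add_one (by positivity)⟩
  have hJ3 : J0 ≤ J := le_trans (by rw [le_div_iff₀ (by linarith only [hs1, hs2, hw1'])]; linarith only [hRw]) hJ1
  rw [div_le_iff₀ (by linarith only [hs1, hs2, hw1'])] at hJ1
  have hJ4 : (w : ℝ) * J ≤ R + w := by
    have := mul_le_mul_of_nonneg_left hJ2.le (show (0 : ℝ) ≤ w by linarith only [hs1, hs2, hw1'])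
    rwa [mul_add, mul_div_cancel₀ _ (by linarith only [hs1, hs2, hw1']), mul_one] at this
  refine ⟨(w * J) ^ 2, noCertificate_profile hu0 huB hu1 hg hc (by linarith only [hs1, hs2, hT6', hP2, hP1, hJ0, hJ3]) ?_ (by linarith only [hs1, hs2, hJ0, hA0, hJ3]) ?_ hw1
    hw2 (by linarith only [hR, hJ1]), ?_⟩
  · have : ((2 * M : ℕ) : ℝ) ≤ J := by push_cast; linarith only [hs1, hs2, hT6', hP2, hP1, hJ0, hA0, hJ3]
    exact_mod_cast this
  · have : ((2 : ℕ) : ℝ) ≤ J := by push_cast; linarith only [hs1, hs2, hT6', hP2, hP1, hJ0, hA0, hJ3]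
    exact_mod_cast this
  · push_cast
    refine pow_le_pow_left₀ (by positivity) ?_ 2
    have hT0 : (0 : ℝ) < T + 1 := by linarith only [hs1, hs2, hT6']
    have h1 : (2 * s / 3 - ε / 2) * x ≤ (w + 1) * (2 * g - 1) := by
      refine le_of_mul_le_mul_right ?_ hT0
      have h2 := mul_le_mul_of_nonneg_right hxw hg0
      have h3 : (2 * s / 3 - ε / 2) * (T + 1) ≤ s * (2 * g - 1) := by
        have e1 : s * (2 * g - 1) - (2 * s / 3 - ε / 2) * (T + 1) =
            (T * ε) / 2 + ε / 2 - 13 / 3 * s := by rw [hgd]; ring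
        linarith only [e1, hTε, hε, hs2]
      have h4 := mul_le_mul_of_nonneg_right h3 (show 0 ≤ x by linarith only [hs1, hs2, hT6', hP2, hP1, hgd, hJ0, hA0, hk1])
      linarith only [h2, h4]
    linarith only [h1, hJ4, hR, hk2]

theorem lpLength_tendsto :
    Tendsto (fun k : ℕ => ((k : ℝ) ^ 2 - lpLength k) / (k : ℝ) ^ (3 / 2 : ℝ)) atTop
      (𝓝 (4 * √2 / 3)) := by
  have hpow : ∀ k : ℕ, (k : ℝ) ^ (3 / 2 : ℝ) = √(k : ℝ) ^ 3 := by
    intro k
    rw [Real.sqrt_eq_rpow, ← Real.rpow_natCast, ← Real.rpow_mul (by positivity)]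
    norm_num
  simp only [hpow]
  obtain ⟨c, hc⟩ : ∃ c : ℝ, c = 2 * √2 / 3 := ⟨_, rfl⟩
  rw [show 4 * √2 / 3 = 2 * c by rw [hc]; ring]
  refine tendsto_order.2 ⟨fun a ha => ?_, fun a ha => ?_⟩
  · obtain ⟨ε, hε⟩ : ∃ ε : ℝ, ε = (2 * c - a) / 4 := ⟨_, rfl⟩
    have hε0 : 0 < ε := by rw [hε]; linarith only [ha]
    filter_upwards [upper_len hε0, sqrt_ge_eventually 1, sqrt_ge_eventually ((c - ε) ^ 2 / ε)]
      with k ⟨N, hN, hN2⟩ h1 h2
    have hL : (lpLength k : ℝ) ≤ N := by exact_mod_cast Nat.sInf_le (s := {N | NoCertificate N k}) hN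
    rw [← hc] at hN2
    obtain ⟨x, hx, hx2⟩ : ∃ x : ℝ, x = √k ∧ x ^ 2 = k :=
      ⟨√k, rfl, Real.sq_sqrt (by positivity)⟩
    rw [← hx] at h1 h2 hN2 ⊢
    rw [← hx2] at hN2 ⊢
    rw [div_le_iff₀ hε0] at h2
    rw [lt_div_iff₀ (by positivity), show a = 2 * c - 4 * ε by rw [hε]; ring]
    have h3 := mul_le_mul_of_nonneg_right h2 (sq_nonneg x)
    have h4 : 0 < ε * x ^ 3 := by positivity
    linarith only [hL, hN2, h3, h4]
  · filter_upwards [upper_len one_pos, sqrt_ge_eventually 1,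
      sqrt_ge_eventually (701 / (a - 2 * c))] with k ⟨N, hN, _⟩ h1 h2
    have hL := lower_bound (Nat.sInf_mem (s := {N | NoCertificate N k}) ⟨N, hN⟩)
    change _ ≤ (lpLength k : ℝ) at hL
    rw [← hc] at hL
    obtain ⟨x, hx, hx2⟩ : ∃ x : ℝ, x = √k ∧ x ^ 2 = k :=
      ⟨√k, rfl, Real.sq_sqrt (by positivity)⟩
    rw [← hx] at h1 h2 hL ⊢
    rw [← hx2] at hL ⊢
    rw [div_le_iff₀ (by linarith only [ha])] at h2
    rw [div_lt_iff₀ (by positivity)]
    have h3 := mul_le_mul_of_nonneg_right h2 (sq_nonneg x)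
    have h4 : 1 ≤ x ^ 2 := one_le_pow₀ h1
    linarith only [hL, h3, h4, sq_nonneg (c * x), sq_nonneg (c * x)]

end Pool.Agent.Work.MP_cb6c95_nt
end
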