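import Mathlib

-- merged part: Pool.Agent.Work.MP_cb6c95_nt.Renewal
section
set_option autoImplicit false

open Finset

namespace Pool.Agent.Work.MP_cb6c95_nt

/-- the renewal sequence with uniform steps in `1..T`, scaled so that it tends to `1` -/
noncomputable def rv (T : ℕ) : ℕ → ℝ
  | 0 => ((T : ℝ) + 1) / 2
  | n + 1 => (∑ i ∈ range T, if i ≤ n then rv T (n - i) else 0) / T
decreasing_by omega

/-- extension by zero to the negative integers -/
noncomputable def RV (T : ℕ) (z : ℤ) : ℝ := if z < 0 then 0 else rv T z.toNat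

theorem RV_neg (T : ℕ) {z : ℤ} (h : z < 0) : RV T z = 0 := by simp [RV, h]

theorem RV_zero (T : ℕ) : RV T 0 = ((T : ℝ) + 1) / 2 := by simp [RV, rv]

theorem RV_succ (T : ℕ) {z : ℤ} (h : 0 ≤ z) :
    RV T (z + 1) = (∑ i ∈ range T, RV T (z - i)) / T := by
  obtain ⟨n, rfl⟩ := Int.eq_ofNat_of_zero_le h
  have h1 : ¬ ((n : ℤ) + 1 < 0) := by omega
  have h2 : ((n : ℤ) + 1).toNat = n + 1 := by omega
  rw [RV, if_neg h1, h2, rv]
  congr 1
  refine sum_congr rfl fun i _ => ?_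
  by_cases hi : i ≤ n
  · have h3 : ¬ ((n : ℤ) - i < 0) := by omega
    have h4 : ((n : ℤ) - i).toNat = n - i := by omega
    rw [if_pos hi, RV, if_neg h3, h4]
  · have h3 : ((n : ℤ) - i < 0) := by omega
    rw [if_neg hi, RV_neg T h3]

theorem int_strong {p : ℤ → Prop} (hneg : ∀ z, z < 0 → p z) (h0 : p 0)
    (hs : ∀ z, 0 ≤ z → (∀ y, y ≤ z → p y) → p (z + 1)) : ∀ z, p z := by
  have key : ∀ n : ℕ, ∀ y : ℤ, y ≤ n → p y := by
    intro n
    induction n with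
    | zero =>
      intro y hy
      rcases lt_or_eq_of_le hy with h | h
      · exact hneg y (by simpa using h)
      · rw [h]; simpa using h0
    | succ n ih =>
      intro y hy
      rcases lt_or_eq_of_le hy with h | h
      · exact ih y (by omega)
      · rw [h]; push_cast; exact hs n (by omega) ih
  intro z
  exact key z.toNat z (by omega)

theorem RV_nonneg (T : ℕ) : ∀ z, 0 ≤ RV T z := by
  refine int_strong (fun z h => by rw [RV_neg T h]) (by rw [RV_zero]; positivity) ?_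
  intro z hz ih
  rw [RV_succ T hz]
  exact div_nonneg (sum_nonneg fun i _ => ih _ (by omega)) (by positivity)

/-- total mass of the ramp kernel -/
noncomputable def PP (T : ℕ) : ℝ := (T : ℝ) * (T + 1) / 2

theorem sum_ramp (T : ℕ) : ∑ j ∈ range T, ((T : ℝ) - j) = PP T := by
  have h : ∀ n : ℕ, ∑ j ∈ range n, (j : ℝ) = n * (n - 1) / 2 := by
    intro n
    induction n with
    | zero => simp
    | succ n ih => rw [sum_range_succ, ih]; push_cast; ring
  rw [sum_sub_distrib, h]; simp [PP]; ring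

theorem sum_id (n : ℕ) : ∑ j ∈ range n, (j : ℝ) = n * (n - 1) / 2 := by
  induction n with
  | zero => simp
  | succ n ih => rw [sum_range_succ, ih]; push_cast; ring

theorem sum_sq' (n : ℕ) : ∑ j ∈ range n, (j : ℝ) ^ 2 = n * (n - 1) * (2 * n - 1) / 6 := by
  induction n with
  | zero => simp
  | succ n ih => rw [sum_range_succ, ih]; push_cast; ring

theorem sum_ramp_mul (T : ℕ) :
    ∑ j ∈ range T, ((T : ℝ) - j) * j = PP T * (((T : ℝ) - 1) / 3) := by
  have : ∀ j ∈ range T, ((T : ℝ) - j) * j = T * j - (j : ℝ) ^ 2 := fun j _ => by ring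
  rw [sum_congr rfl this, sum_sub_distrib, ← mul_sum, sum_id, sum_sq', PP]; ring

theorem sum_ramp_sq (T : ℕ) :
    ∑ j ∈ range T, ((T : ℝ) - j) ^ 2 = T * (T + 1) * (2 * T + 1) / 6 := by
  have : ∀ j ∈ range T, ((T : ℝ) - j) ^ 2 = (T : ℝ) ^ 2 - 2 * T * j + (j : ℝ) ^ 2 :=
    fun j _ => by ring
  rw [sum_congr rfl this, sum_add_distrib, sum_sub_distrib, ← mul_sum, sum_id, sum_sq']
  simp; ring

theorem ramp_shift (T : ℕ) (f : ℤ → ℝ) (z : ℤ) :
    ∑ j ∈ range T, ((T : ℝ) - j) * f (z + 1 - j) =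
      T * f (z + 1) - ∑ j ∈ range T, f (z - j) + ∑ j ∈ range T, ((T : ℝ) - j) * f (z - j) := by
  have h1 : ∑ j ∈ range (T + 1), ((T : ℝ) - j) * f (z + 1 - j) =
      ∑ j ∈ range T, ((T : ℝ) - j) * f (z + 1 - j) := by
    rw [sum_range_succ]; simp
  rw [← h1, sum_range_succ']
  have h2 : ∀ j ∈ range T, ((T : ℝ) - ((j + 1 : ℕ) : ℝ)) * f (z + 1 - ((j + 1 : ℕ) : ℤ)) =
      ((T : ℝ) - j) * f (z - j) - f (z - j) := by
    intro j _
    have : z + 1 - ((j + 1 : ℕ) : ℤ) = z - j := by push_cast; ring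
    rw [this]; push_cast; ring
  rw [sum_congr rfl h2, sum_sub_distrib]
  simp; ring

theorem RV_ramp {T : ℕ} (hT : 1 ≤ T) {z : ℤ} (hz : 0 ≤ z) :
    ∑ j ∈ range T, ((T : ℝ) - j) * RV T (z - j) = PP T := by
  have hT' : (0 : ℝ) < T := by exact_mod_cast hT
  induction z, hz using Int.leInduction with
  | base =>
    rw [sum_eq_single 0]
    · simp [RV_zero, PP]; ring
    · intro j _ hj
      rw [RV_neg T (by omega)]; simp
    · intro h; exact absurd (mem_range.2 hT) h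
  | succ z hz ih =>
    rw [ramp_shift, ih, RV_succ T hz]
    field_simp; ring

theorem RV_contr {T : ℕ} (hT : 1 ≤ T) {z : ℤ} (hz : 0 ≤ z) :
    RV T (z + 1) - 1 = ∑ j ∈ range T, (j : ℝ) / T ^ 2 * (RV T (z - j) - 1) := by
  have hT' : (0 : ℝ) < T := by exact_mod_cast hT
  have h1 := RV_ramp hT hz
  have h2 := RV_succ T hz
  have h3 : ∀ j ∈ range T, (j : ℝ) / T ^ 2 * (RV T (z - j) - 1) =
      1 / T * RV T (z - j) - 1 / T ^ 2 * (((T : ℝ) - j) * RV T (z - j)) - 1 / T ^ 2 * j := by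
    intro j _; field_simp; ring
  rw [sum_congr rfl h3, sum_sub_distrib, sum_sub_distrib, ← mul_sum, ← mul_sum, ← mul_sum, h1,
    sum_id, h2, PP]
  field_simp; ring

theorem sum_w_le {T : ℕ} (hT : 1 ≤ T) : ∑ j ∈ range T, (j : ℝ) / T ^ 2 ≤ 1 / 2 := by
  have hT' : (0 : ℝ) < T := by exact_mod_cast hT
  rw [← sum_div, sum_id, div_le_iff₀ (by positivity)]
  linarith only [hT']

theorem RV_base {T : ℕ} (hT : 1 ≤ T) : ∀ z : ℤ, z ≠ 0 → |RV T z - 1| ≤ 1 := by
  have hT' : (0 : ℝ) < T := by exact_mod_cast hT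
  have hT1 : (1 : ℝ) ≤ T := by exact_mod_cast hT
  refine int_strong (fun z h _ => by rw [RV_neg T h]; simp) (fun h => absurd rfl h) ?_
  intro z hz ih _
  rw [RV_contr hT hz]
  refine (abs_sum_le_sum_abs _ _).trans ?_
  have h : ∀ j ∈ range T, |(j : ℝ) / T ^ 2 * (RV T (z - j) - 1)| ≤
      (j : ℝ) / T ^ 2 + if j = z.toNat then 1 / 2 else 0 := by
    intro j hj
    have hjT : (j : ℝ) ≤ T := by exact_mod_cast (mem_range.1 hj).le
    have hw : 0 ≤ (j : ℝ) / T ^ 2 := by positivity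
    rw [abs_mul, abs_of_nonneg hw]
    by_cases h0 : j = z.toNat
    · rw [if_pos h0]
      have : z - j = 0 := by omega
      rw [this, RV_zero, abs_of_nonneg (by linarith only [hT1])]
      have : (j : ℝ) / T ^ 2 * ((T + 1) / 2 - 1) ≤ 1 / 2 := by
        rw [div_mul_eq_mul_div, div_le_iff₀ (by positivity)]
        have : (0 : ℝ) ≤ j := by positivity
        linarith only [hjT, mul_nonneg_of_nonpos_of_nonpos (Mathlib.Tactic.Linarith.sub_nonpos_of_le (Mathlib.Tactic.Linarith.natCast_nonneg ℝ T)) (Mathlib.Tactic.Linarith.sub_nonpos_of_le hjT)]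
      linarith only [hw, this]
    · rw [if_neg h0, add_zero]
      have := ih (z - j) (by omega) (by omega)
      linarith only [hw, this, mul_nonneg_of_nonpos_of_nonpos (Mathlib.Tactic.Linarith.sub_nonpos_of_le hw) (Mathlib.Tactic.Linarith.sub_nonpos_of_le this)]
  refine (sum_le_sum h).trans ?_
  rw [sum_add_distrib, sum_ite_eq']
  have := sum_w_le hT
  split_ifs <;> linarith only [this]

theorem RV_decay {T : ℕ} (hT : 1 ≤ T) (n : ℕ) :
    ∀ z : ℤ, (n : ℤ) * T + 1 ≤ z → |RV T z - 1| ≤ (1 / 2) ^ n := by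
  induction n with
  | zero => intro z hz; simpa using RV_base hT z (by simp at hz; omega)
  | succ n ih =>
    intro z hz
    have hn : (0 : ℤ) ≤ (n : ℤ) * T := by positivity
    have hz' : (n : ℤ) * T + T + 1 ≤ z := by push_cast at hz; linarith only [hz]
    obtain ⟨y, rfl⟩ : ∃ y, z = y + 1 := ⟨z - 1, by ring⟩
    rw [RV_contr hT (by omega)]
    refine (abs_sum_le_sum_abs _ _).trans ?_
    have h : ∀ j ∈ range T, |(j : ℝ) / T ^ 2 * (RV T (y - j) - 1)| ≤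
        (j : ℝ) / T ^ 2 * (1 / 2) ^ n := by
      intro j hj
      have hw : 0 ≤ (j : ℝ) / T ^ 2 := by positivity
      rw [abs_mul, abs_of_nonneg hw]
      have hj' := mem_range.1 hj
      exact mul_le_mul_of_nonneg_left (ih _ (by omega)) hw
    refine (sum_le_sum h).trans ?_
    rw [← sum_mul, pow_succ (1 / 2 : ℝ)]
    have := sum_w_le hT
    have h2 : (0 : ℝ) < (1 / 2) ^ n := by positivity
    linarith only [this, h2, mul_nonneg_of_nonpos_of_nonpos (Mathlib.Tactic.Linarith.sub_nonpos_of_le this) (le_of_lt (Mathlib.Tactic.Linarith.sub_neg_of_lt h2))]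

/-- shifting a sum over an integer interval -/
theorem sum_Ico_shift (f : ℤ → ℝ) (a b c : ℤ) :
    ∑ y ∈ Ico a b, f (y - c) = ∑ x ∈ Ico (a - c) (b - c), f x := by
  refine sum_bij (fun y _ => y - c) ?_ ?_ ?_ ?_
  · intro y hy; simp only [mem_Ico] at *; omega
  · intro y _ y' _ h; simpa using h
  · intro x hx; refine ⟨x + c, ?_, by ring⟩; simp only [mem_Ico] at *; omega
  · intro y _; rfl

/-- exact formula for the partial sums of the renewal sequence -/
theorem RV_sum {T : ℕ} (hT : 1 ≤ T) {N : ℤ} (hN : (T : ℤ) ≤ N) :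
    PP T * ∑ z ∈ Ico 0 N, RV T z =
      PP T * N + ∑ j ∈ range T, ((T : ℝ) - j) * ∑ z ∈ Ico (N - j) N, RV T z := by
  have h0 : (0 : ℤ) ≤ N := by omega
  have h1 : ∑ y ∈ Ico 0 N, ∑ j ∈ range T, ((T : ℝ) - j) * RV T (y - j) = PP T * N := by
    rw [sum_congr rfl fun y hy => RV_ramp hT (mem_Ico.1 hy).1]
    simp only [sum_const, Int.card_Ico, sub_zero, nsmul_eq_mul]
    have : ((N.toNat : ℕ) : ℝ) = N := by
      have : ((N.toNat : ℕ) : ℤ) = N := by omega
      exact_mod_cast this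
    rw [this]; ring
  rw [← h1, sum_comm, ← sum_add_distrib, ← sum_ramp, sum_mul]
  refine sum_congr rfl fun j hj => ?_
  have hj' := mem_range.1 hj
  rw [← mul_sum, ← mul_add, sum_Ico_shift (RV T) 0 N j]
  congr 1
  have e1 : ∑ x ∈ Ico (0 - (j : ℤ)) (N - j), RV T x = ∑ x ∈ Ico 0 (N - j), RV T x := by
    symm
    refine sum_subset (fun x hx => by simp only [mem_Ico] at *; omega) ?_
    intro x hx hx'
    simp only [mem_Ico] at *
    exact RV_neg T (by omega)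
  rw [e1, ← sum_union (by rw [disjoint_left]; intro x; simp only [mem_Ico]; omega)]
  congr 1
  ext x; simp only [mem_union, mem_Ico]; omega

theorem card_Ico_real (N : ℤ) (j : ℕ) : (((Ico (N - j) N).card : ℕ) : ℝ) = j := by
  have : (Ico (N - j) N).card = j := by rw [Int.card_Ico]; omega
  rw [this]

theorem PP_pos {T : ℕ} (hT : 1 ≤ T) : 0 < PP T := by
  have hT' : (0 : ℝ) < T := by exact_mod_cast hT
  unfold PP; positivity

theorem RV_sum_bounds {T : ℕ} (hT : 1 ≤ T) {N : ℤ} (hN : (T : ℤ) ≤ N) {e : ℝ}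
    (he : ∀ z, N - T + 1 ≤ z → |RV T z - 1| ≤ e) :
    |∑ z ∈ Ico 0 N, RV T z - N - ((T : ℝ) - 1) / 3| ≤ e * (((T : ℝ) - 1) / 3) := by
  have hP := PP_pos hT
  have h1 := RV_sum hT hN
  have h2 : PP T * (∑ z ∈ Ico 0 N, RV T z - N - ((T : ℝ) - 1) / 3) =
      ∑ j ∈ range T, ((T : ℝ) - j) * ∑ z ∈ Ico (N - j) N, (RV T z - 1) := by
    have : ∀ j ∈ range T, ((T : ℝ) - j) * ∑ z ∈ Ico (N - j) N, (RV T z - 1) =
        ((T : ℝ) - j) * ∑ z ∈ Ico (N - j) N, RV T z - ((T : ℝ) - j) * j := by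
      intro j _
      rw [sum_sub_distrib, sum_const, nsmul_eq_mul, card_Ico_real]; ring
    rw [sum_congr rfl this, sum_sub_distrib, sum_ramp_mul]
    linarith only [h1]
  have h3 : |∑ j ∈ range T, ((T : ℝ) - j) * ∑ z ∈ Ico (N - j) N, (RV T z - 1)| ≤
      PP T * (e * (((T : ℝ) - 1) / 3)) := by
    refine (abs_sum_le_sum_abs _ _).trans ?_
    have : ∀ j ∈ range T, |((T : ℝ) - j) * ∑ z ∈ Ico (N - j) N, (RV T z - 1)| ≤
        e * (((T : ℝ) - j) * j) := by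
      intro j hj
      have hj' := mem_range.1 hj
      have hjT : (0 : ℝ) ≤ (T : ℝ) - j := by
        have : (j : ℝ) ≤ T := by exact_mod_cast hj'.le
        linarith only [this]
      rw [abs_mul, abs_of_nonneg hjT]
      have : |∑ z ∈ Ico (N - j) N, (RV T z - 1)| ≤ j * e := by
        refine (abs_sum_le_sum_abs _ _).trans ?_
        refine (sum_le_sum fun z hz => he z (by simp only [mem_Ico] at hz; omega)).trans ?_
        rw [sum_const, nsmul_eq_mul, card_Ico_real]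
      linarith only [hjT, this, mul_nonneg_of_nonpos_of_nonpos (Mathlib.Tactic.Linarith.sub_nonpos_of_le hjT) (Mathlib.Tactic.Linarith.sub_nonpos_of_le this)]
    refine (sum_le_sum this).trans ?_
    rw [← mul_sum, sum_ramp_mul]; ring_nf; rfl
  rw [← h2, abs_mul, abs_of_pos hP] at h3
  exact le_of_mul_le_mul_left h3 hP

end Pool.Agent.Work.MP_cb6c95_nt
end

-- merged part: Pool.Agent.Work.MP_cb6c95_nt.Defs
section
set_option autoImplicit false

open Finset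

namespace Pool.Agent.Work.MP_cb6c95_nt

/-- number of pairs `a < a'` in `A` with `a' - a = d` (for `d ≥ 1`) -/
def reps (A : Finset ℕ) (d : ℕ) : ℕ := (A.filter fun a => a + d ∈ A).card

/-- no weighted count of differences excludes `k`-subsets of `{1,…,N}`: for every weight
function `W ≥ 0` some `k`-subset `A` has `∑ W(d) r_A(d) ≤ ∑ W(d)` -/
def NoCertificate (N k : ℕ) : Prop :=
  ∀ W : ℕ → ℝ, (∀ d, 0 ≤ W d) → ∃ A : Finset ℕ, A ⊆ Icc 1 N ∧ A.card = k ∧
    ∑ d ∈ Icc 1 N, W d * (reps A d : ℝ) ≤ ∑ d ∈ Icc 1 N, W d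

/-- the best lower bound for the largest element obtainable from weighted counts of differences -/
noncomputable def lpLength (k : ℕ) : ℕ := sInf {N | NoCertificate N k}

end Pool.Agent.Work.MP_cb6c95_nt
end

-- merged part: Pool.Agent.Work.MP_cb6c95_nt.Upper
section
set_option autoImplicit false

open Finset

namespace Pool.Agent.Work.MP_cb6c95_nt

/-- the dual profile -/
noncomputable def gg (T : ℕ) (x : ℤ) : ℝ := ∑ j ∈ range T, ((T : ℝ) - j) * RV T (x + j)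

theorem ramp_nonneg {T j : ℕ} (hj : j ∈ range T) : (0 : ℝ) ≤ (T : ℝ) - j := by
  have : (j : ℝ) ≤ T := by exact_mod_cast (mem_range.1 hj).le
  linarith

theorem gg_nonneg (T : ℕ) (x : ℤ) : 0 ≤ gg T x :=
  sum_nonneg fun _ hj => mul_nonneg (ramp_nonneg hj) (RV_nonneg _ _)

theorem gg_ramp {T : ℕ} (hT : 1 ≤ T) {y : ℤ} (hy : 0 ≤ y) :
    ∑ i ∈ range T, ((T : ℝ) - i) * gg T (y - i) = PP T ^ 2 := by
  unfold gg
  simp_rw [mul_sum]
  rw [sum_comm]
  have : ∀ j ∈ range T, ∑ i ∈ range T, ((T : ℝ) - i) * (((T : ℝ) - j) * RV T (y - i + j)) =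
      ((T : ℝ) - j) * PP T := by
    intro j _
    rw [← RV_ramp hT (z := y + j) (by omega), mul_sum]
    refine sum_congr rfl fun i _ => ?_
    have : y - i + j = y + j - i := by ring
    rw [this]; ring
  rw [sum_congr rfl this, ← sum_mul, sum_ramp]; ring

theorem gg_sq {T : ℕ} (hT : 1 ≤ T) {N : ℤ} (hN : (T : ℤ) ≤ N) {e : ℝ} (he0 : 0 ≤ e)
    (he : ∀ z, N - T + 1 ≤ z → |RV T z - 1| ≤ e) :
    ∑ x ∈ Ico (-(T : ℤ)) N, gg T x ^ 2 ≤
      PP T ^ 2 * (N + ((T : ℝ) - 1) / 3 * ((1 + e) * (2 + e))) := by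
  have hP := PP_pos hT
  have hT1 : (1 : ℝ) ≤ T := by exact_mod_cast hT
  have hV : ∀ z, N - T + 1 ≤ z → RV T z ≤ 1 + e := fun z hz => by
    have := (abs_le.1 (he z hz)).2; linarith only [this]
  have hg : ∀ x, N - T + 1 ≤ x → gg T x ≤ PP T * (1 + e) := by
    intro x hx
    rw [← sum_ramp, sum_mul]
    exact sum_le_sum fun j hj => mul_le_mul_of_nonneg_left (hV _ (by omega)) (ramp_nonneg hj)
  have h1 : ∑ x ∈ Ico (-(T : ℤ)) N, gg T x ^ 2 =
      ∑ j ∈ range T, ((T : ℝ) - j) * ∑ x ∈ Ico (-(T : ℤ)) N, gg T x * RV T (x + j) := by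
    simp_rw [mul_sum]
    rw [sum_comm]
    refine sum_congr rfl fun x _ => ?_
    rw [sq]
    nth_rewrite 2 [gg]
    rw [mul_sum]
    exact sum_congr rfl fun j _ => by ring
  have h2 : PP T ^ 2 * ∑ y ∈ Ico 0 N, RV T y =
      ∑ j ∈ range T, ((T : ℝ) - j) * ∑ x ∈ Ico (-(T : ℤ)) (N - j), gg T x * RV T (x + j) := by
    have : ∀ y ∈ Ico 0 N, PP T ^ 2 * RV T y =
        ∑ j ∈ range T, ((T : ℝ) - j) * (gg T (y - j) * RV T (y - j + j)) := by
      intro y hy
      rw [← gg_ramp hT (mem_Ico.1 hy).1, sum_mul]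
      refine sum_congr rfl fun j _ => ?_
      rw [sub_add_cancel]; ring
    rw [mul_sum, sum_congr rfl this, sum_comm]
    refine sum_congr rfl fun j hj => ?_
    have hj' := mem_range.1 hj
    rw [← mul_sum, sum_Ico_shift (fun x => gg T x * RV T (x + j)) 0 N j]
    congr 1
    refine sum_subset (fun x hx => by simp only [mem_Ico] at *; omega) ?_
    intro x hx hx'
    simp only [mem_Ico] at *
    rw [RV_neg T (by omega), mul_zero]
  have h3 : ∀ j ∈ range T, ((T : ℝ) - j) * ∑ x ∈ Ico (-(T : ℤ)) N, gg T x * RV T (x + j) ≤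
      ((T : ℝ) - j) * ∑ x ∈ Ico (-(T : ℤ)) (N - j), gg T x * RV T (x + j) +
        ((T : ℝ) - j) * j * (PP T * (1 + e) ^ 2) := by
    intro j hj
    have hj' := mem_range.1 hj
    have hu : Ico (-(T : ℤ)) N = Ico (-(T : ℤ)) (N - j) ∪ Ico (N - j) N := by
      ext x; simp only [mem_union, mem_Ico]; omega
    rw [hu, sum_union (by rw [disjoint_left]; intro x; simp only [mem_Ico]; omega), mul_add]
    have : ∑ x ∈ Ico (N - j) N, gg T x * RV T (x + j) ≤ j * (PP T * (1 + e) ^ 2) := by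
      have : ∀ x ∈ Ico (N - j) N, gg T x * RV T (x + j) ≤ PP T * (1 + e) ^ 2 := by
        intro x hx
        simp only [mem_Ico] at hx
        have a1 := hg x (by omega)
        have a2 := hV (x + j) (by omega)
        calc gg T x * RV T (x + j) ≤ (PP T * (1 + e)) * (1 + e) :=
              mul_le_mul a1 a2 (RV_nonneg _ _) (by positivity)
          _ = _ := by ring
      refine (sum_le_sum this).trans ?_
      rw [sum_const, nsmul_eq_mul, card_Ico_real]
    have h0 := ramp_nonneg hj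
    linarith only [this, h0, mul_nonneg_of_nonpos_of_nonpos (Mathlib.Tactic.Linarith.sub_nonpos_of_le this) (Mathlib.Tactic.Linarith.sub_nonpos_of_le h0)]
  have h4 := (abs_le.1 (RV_sum_bounds hT hN he)).2
  rw [h1]
  refine (sum_le_sum h3).trans ?_
  rw [sum_add_distrib, ← h2, ← sum_mul, sum_ramp_mul]
  have h5 : PP T ^ 2 * ∑ y ∈ Ico 0 N, RV T y ≤
      PP T ^ 2 * (N + (1 + e) * (((T : ℝ) - 1) / 3)) :=
    mul_le_mul_of_nonneg_left (by linarith only [h4]) (by positivity)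
  linarith only [h5]

/-- smoothed counting function -/
noncomputable def FF (T : ℕ) (A : Finset ℕ) (x : ℤ) : ℝ :=
  ∑ j ∈ range T, ((T : ℝ) - j) * ∑ a ∈ A, if (a : ℤ) = x + j + 1 then 1 else 0

theorem pair_gF {T : ℕ} (hT : 1 ≤ T) {N : ℤ} {A : Finset ℕ}
    (hA : ∀ a ∈ A, 1 ≤ a ∧ (a : ℤ) ≤ N) :
    ∑ x ∈ Ico (-(T : ℤ)) N, gg T x * FF T A x = A.card * PP T ^ 2 := by
  unfold FF
  simp_rw [mul_sum]
  rw [sum_comm]
  have : ∀ j ∈ range T, ∑ x ∈ Ico (-(T : ℤ)) N, ∑ a ∈ A,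
      gg T x * (((T : ℝ) - j) * if (a : ℤ) = x + j + 1 then 1 else 0) =
      ∑ a ∈ A, ((T : ℝ) - j) * gg T ((a : ℤ) - 1 - j) := by
    intro j hj
    have hj' := mem_range.1 hj
    rw [sum_comm]
    refine sum_congr rfl fun a ha => ?_
    have := hA a ha
    rw [sum_eq_single ((a : ℤ) - 1 - j)]
    · rw [if_pos (by ring)]; ring
    · intro x _ hx
      rw [if_neg (by omega)]; ring
    · intro h; exact absurd (by simp only [mem_Ico]; omega) h
  rw [sum_congr rfl this, sum_comm]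
  have h2 : ∀ a ∈ A, ∑ i ∈ range T, ((T : ℝ) - i) * gg T ((a : ℤ) - 1 - i) = PP T ^ 2 :=
    fun a ha => gg_ramp hT (y := (a : ℤ) - 1) (by have := hA a ha; omega)
  rw [sum_congr rfl h2]
  simp

theorem corr_eq {T : ℕ} {N : ℤ} {A : Finset ℕ} (hA : ∀ a ∈ A, 1 ≤ a ∧ (a : ℤ) ≤ N)
    {i j : ℕ} (hi : i < T) (hij : i ≤ j) :
    ∑ x ∈ Ico (-(T : ℤ)) N, (∑ a ∈ A, if (a : ℤ) = x + i + 1 then (1 : ℝ) else 0) *
      (∑ a ∈ A, if (a : ℤ) = x + j + 1 then (1 : ℝ) else 0) = reps A (j - i) := by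
  simp_rw [sum_mul]
  rw [sum_comm, reps, card_filter]
  push_cast
  refine sum_congr rfl fun a ha => ?_
  have := hA a ha
  rw [sum_eq_single ((a : ℤ) - 1 - i)]
  · rw [if_pos (by ring), one_mul]
    have : ∀ b ∈ A, (if (b : ℤ) = (a : ℤ) - 1 - i + j + 1 then (1 : ℝ) else 0) =
        if b = a + (j - i) then 1 else 0 := by
      intro b _
      exact if_congr (by omega) rfl rfl
    rw [sum_congr rfl this, sum_ite_eq']
  · intro x _ hx
    rw [if_neg (by omega)]; ring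
  · intro h; exact absurd (by simp only [mem_Ico]; omega) h

theorem FF_sq {T : ℕ} {N : ℤ} {A : Finset ℕ} (hA : ∀ a ∈ A, 1 ≤ a ∧ (a : ℤ) ≤ N) :
    ∑ x ∈ Ico (-(T : ℤ)) N, FF T A x ^ 2 = ∑ p ∈ range T ×ˢ range T,
      ((T : ℝ) - p.1) * ((T : ℝ) - p.2) * reps A (Nat.dist p.1 p.2) := by
  have : ∀ x ∈ Ico (-(T : ℤ)) N, FF T A x ^ 2 = ∑ p ∈ range T ×ˢ range T,
      ((T : ℝ) - p.1) * ((T : ℝ) - p.2) *
        ((∑ a ∈ A, if (a : ℤ) = x + p.1 + 1 then (1 : ℝ) else 0) *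
        (∑ a ∈ A, if (a : ℤ) = x + p.2 + 1 then (1 : ℝ) else 0)) := by
    intro x _
    rw [sq, FF, sum_mul_sum, sum_product]
    exact sum_congr rfl fun i _ => sum_congr rfl fun j _ => by ring
  rw [sum_congr rfl this, sum_comm]
  refine sum_congr rfl fun p hp => ?_
  simp only [mem_product, mem_range] at hp
  rw [← mul_sum]
  congr 1
  rcases le_total p.1 p.2 with h | h
  · rw [corr_eq hA hp.1 h, Nat.dist_eq_sub_of_le h]
  · rw [Nat.dist_eq_sub_of_le_right h, ← corr_eq hA hp.2 h]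
    exact sum_congr rfl fun x _ => by ring

theorem reps_zero (A : Finset ℕ) : reps A 0 = A.card := by
  simp [reps, filter_true_of_mem]

theorem reps_big {N : ℕ} {A : Finset ℕ} (hA : A ⊆ Icc 1 N) {d : ℕ} (hd : N < d) :
    reps A d = 0 := by
  rw [reps, card_eq_zero, filter_eq_empty_iff]
  intro a _ h
  have := mem_Icc.1 (hA h)
  omega

/-- the energy bound from the weight function of the ramp kernel -/
theorem energy {N0 k : ℕ} (h : NoCertificate N0 k) (T : ℕ) :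
    ∃ A : Finset ℕ, A ⊆ Icc 1 N0 ∧ A.card = k ∧ ∑ p ∈ range T ×ˢ range T,
      ((T : ℝ) - p.1) * ((T : ℝ) - p.2) * reps A (Nat.dist p.1 p.2) ≤
        PP T ^ 2 + k * (T * (T + 1) * (2 * T + 1) / 6) := by
  set s := (range T ×ˢ range T).filter fun p : ℕ × ℕ => Nat.dist p.1 p.2 ∈ Icc 1 N0 with hs
  set c : ℕ × ℕ → ℝ := fun p => ((T : ℝ) - p.1) * ((T : ℝ) - p.2) with hc
  have hc0 : ∀ p ∈ range T ×ˢ range T, 0 ≤ c p := fun p hp =>
    mul_nonneg (ramp_nonneg (mem_product.1 hp).1) (ramp_nonneg (mem_product.1 hp).2)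
  obtain ⟨A, hA, hk, hW⟩ := h (fun d => ∑ p ∈ s with Nat.dist p.1 p.2 = d, c p)
    (fun d => sum_nonneg fun p hp => hc0 p (mem_filter.1 (mem_filter.1 hp).1).1)
  refine ⟨A, hA, hk, ?_⟩
  have hm : ∀ p ∈ s, Nat.dist p.1 p.2 ∈ Icc 1 N0 := fun p hp => (mem_filter.1 hp).2
  have e1 : ∑ d ∈ Icc 1 N0, ∑ p ∈ s with Nat.dist p.1 p.2 = d, c p = ∑ p ∈ s, c p :=
    sum_fiberwise_of_maps_to hm c
  have e2 : ∑ d ∈ Icc 1 N0, (∑ p ∈ s with Nat.dist p.1 p.2 = d, c p) * (reps A d : ℝ) =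
      ∑ p ∈ s, c p * reps A (Nat.dist p.1 p.2) := by
    rw [← sum_fiberwise_of_maps_to hm]
    refine sum_congr rfl fun d _ => ?_
    rw [sum_mul]
    exact sum_congr rfl fun p hp => by rw [(mem_filter.1 hp).2]
  have e3 : ∑ p ∈ s, c p ≤ PP T ^ 2 := by
    refine (sum_le_sum_of_subset_of_nonneg (filter_subset _ _) fun p hp _ => hc0 p hp).trans ?_
    rw [sq, ← sum_ramp, sum_mul_sum, sum_product]
  have e4 : ∑ p ∈ range T ×ˢ range T, c p * reps A (Nat.dist p.1 p.2) =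
      ∑ p ∈ s, c p * reps A (Nat.dist p.1 p.2) +
        ∑ p ∈ range T ×ˢ range T, if p.1 = p.2 then c p * k else 0 := by
    rw [hs, sum_filter, ← sum_add_distrib]
    refine sum_congr rfl fun p _ => ?_
    by_cases h1 : p.1 = p.2
    · rw [if_pos h1, h1, Nat.dist_self, reps_zero, hk, if_neg (by simp)]; ring
    · rw [if_neg h1, add_zero]
      split_ifs with h2
      · rfl
      · have : Nat.dist p.1 p.2 ≠ 0 := fun h => h1 (Nat.eq_of_dist_eq_zero h)
        rw [reps_big hA (by simp only [mem_Icc] at h2; omega)]; simp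
  have e5 : (∑ p ∈ range T ×ˢ range T, if p.1 = p.2 then c p * k else 0) =
      k * (T * (T + 1) * (2 * T + 1) / 6) := by
    rw [sum_product, ← sum_ramp_sq, mul_sum]
    refine sum_congr rfl fun i hi => ?_
    simp only
    rw [sum_ite_eq, if_pos hi, hc]; ring
  rw [e2, e1] at hW
  change ∑ p ∈ range T ×ˢ range T, c p * reps A (Nat.dist p.1 p.2) ≤ _
  rw [e4, e5]; linarith only [hW, e3]

theorem core {N0 k : ℕ} (h : NoCertificate N0 k) {T n : ℕ} (hT : 1 ≤ T) {N : ℕ} (hN0 : N0 ≤ N)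
    (hN : (n + 1) * T ≤ N) :
    (k : ℝ) ^ 2 ≤ (1 + 4 / 3 * k / T) *
      (N + ((T : ℝ) - 1) / 3 * ((1 + (1 / 2) ^ n) * (2 + (1 / 2) ^ n))) := by
  obtain ⟨A, hA, hk, hE⟩ := energy h T
  have hP := PP_pos hT
  have hT1 : (1 : ℝ) ≤ T := by exact_mod_cast hT
  have hA' : ∀ a ∈ A, 1 ≤ a ∧ (a : ℤ) ≤ (N : ℤ) := fun a ha => by
    have := mem_Icc.1 (hA ha); omega
  have hNZ : ((n : ℤ) + 1) * T ≤ N := by exact_mod_cast hN
  have hn : (0 : ℤ) ≤ (n : ℤ) * T := by positivity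
  have hg := gg_sq hT (N := N) (by linarith only [hN, hn]) (e := (1 / 2) ^ n) (by positivity)
    (fun z hz => RV_decay hT n z (by linarith only [hN, hz]))
  have hcs := sum_mul_sq_le_sq_mul_sq (Ico (-(T : ℤ)) N) (gg T) (FF T A)
  rw [pair_gF hT hA', FF_sq hA', hk] at hcs
  set G := (N : ℝ) + ((T : ℝ) - 1) / 3 * ((1 + (1 / 2) ^ n) * (2 + (1 / 2) ^ n)) with hG
  have hG0 : 0 ≤ G := by
    have : 0 ≤ (T : ℝ) - 1 := by linarith only [hT1]
    positivity
  have hQ : (k : ℝ) * (T * (T + 1) * (2 * T + 1) / 6) ≤ PP T ^ 2 * (4 / 3 * k / T) := by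
    have hk0 : (0 : ℝ) ≤ k := by positivity
    have : PP T ^ 2 * (4 / 3 * k / T) = k * (T * (T + 1) * (2 * T + 2) / 6) := by
      unfold PP; field_simp; ring
    rw [this]
    refine mul_le_mul_of_nonneg_left ?_ hk0
    have : 0 ≤ (T : ℝ) * (T + 1) := by positivity
    linarith only [this]
  have hE0 : 0 ≤ ∑ p ∈ range T ×ˢ range T,
      ((T : ℝ) - p.1) * ((T : ℝ) - p.2) * reps A (Nat.dist p.1 p.2) :=
    sum_nonneg fun p hp => mul_nonneg (mul_nonneg (ramp_nonneg (mem_product.1 hp).1)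
      (ramp_nonneg (mem_product.1 hp).2)) (by positivity)
  have h1 : (k * PP T ^ 2) ^ 2 ≤ (PP T ^ 2 * G) * (PP T ^ 2 * (1 + 4 / 3 * k / T)) := by
    refine hcs.trans (mul_le_mul (by rw [hG]; exact_mod_cast hg) (by linarith only [hE, hQ]) hE0 (by positivity))
  have h2 : PP T ^ 4 * (k : ℝ) ^ 2 ≤ PP T ^ 4 * ((1 + 4 / 3 * k / T) * G) := by
    calc _ = (k * PP T ^ 2) ^ 2 := by ring
      _ ≤ _ := h1
      _ = _ := by ring
  exact le_of_mul_le_mul_left h2 (by positivity)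

theorem cube_le (n : ℕ) : ((n : ℝ) + 4) ^ 3 ≤ 64 * 2 ^ n := by
  induction n with
  | zero => norm_num
  | succ n ih =>
    have hn : (0 : ℝ) ≤ n := by positivity
    have : ((n : ℝ) + 1 + 4) ^ 3 ≤ 2 * ((n : ℝ) + 4) ^ 3 := by linarith only [hn, mul_nonneg hn hn, mul_nonneg hn (mul_nonneg hn hn), mul_self_nonneg ↑n]
    push_cast
    rw [pow_succ (2 : ℝ)]; linarith

theorem lower_bound {N0 k : ℕ} (h : NoCertificate N0 k) :
    ((k : ℝ) - 2 * √2 / 3 * √k) ^ 2 - 700 ≤ N0 := by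
  rcases Nat.eq_zero_or_pos k with rfl | hk
  · have : (0 : ℝ) ≤ N0 := by positivity
    simp; linarith
  obtain ⟨s, hs, hs0, hs1, hs2⟩ : ∃ s : ℝ, s = √2 ∧ s ^ 2 = 2 ∧ 1.4 < s ∧ s < 1.5 := by
    have h2 : (√2 : ℝ) ^ 2 = 2 := Real.sq_sqrt (by norm_num)
    have h0 : (0 : ℝ) ≤ √2 := Real.sqrt_nonneg _
    exact ⟨√2, rfl, h2, by (refine lt_of_not_ge fun h_nl => ?_; linarith only [h_nl, h2, h0, mul_nonneg_of_nonpos_of_nonpos (Mathlib.Tactic.Linarith.sub_nonpos_of_le h0) (Mathlib.Tactic.Linarith.sub_nonpos_of_le h_nl)]), by (refine lt_of_not_ge fun h_nl => ?_; linarith only [h_nl, h2, h0, mul_nonneg_of_nonpos_of_nonpos (Mathlib.Tactic.Linarith.sub_nonpos_of_le h0) (Mathlib.Tactic.Linarith.sub_nonpos_of_le h_nl)])⟩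
  obtain ⟨x, hx, hx2, hx1⟩ : ∃ x : ℝ, x = √k ∧ x ^ 2 = k ∧ 1 ≤ x := by
    have hk1 : (1 : ℝ) ≤ k := by exact_mod_cast hk
    exact ⟨√k, rfl, Real.sq_sqrt (by positivity), Real.one_le_sqrt.2 hk1⟩
  rw [← hs, ← hx]
  obtain ⟨y, hy⟩ : ∃ y : ℝ, x = s * y + 2 * s / 3 := ⟨(x - 2 * s / 3) / s, by field_simp; ring⟩
  have hy0 : 0 < y := by
    by_contra hc
    have : s * y ≤ 0 := mul_nonpos_of_nonneg_of_nonpos (by linarith only [hs1, hs2]) (not_lt.1 hc)
    linarith only [hs2, hx1, hy, this]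
  obtain ⟨T0, hT0⟩ : ∃ T0 : ℝ, T0 = 2 * x ^ 2 * y := ⟨_, rfl⟩
  have hT0pos : 0 < T0 := by rw [hT0]; positivity
  have hB : ((k : ℝ) - 2 * s / 3 * x) ^ 2 = y * T0 := by
    have : (k : ℝ) - 2 * s / 3 * x = x * (s * y) := by rw [← hx2]; nth_rewrite 1 [sq]; nth_rewrite 2 [hy]; ring
    rw [this, hT0, mul_pow, mul_pow, hs0]; ring
  rw [hB]
  have hN0 : (0 : ℝ) ≤ N0 := by positivity
  by_cases hy3 : y < 3
  · have hx6 : x ≤ 5.5 := by linarith only [hs0, hy, hy3, hs1, hs2, hx1, mul_nonneg_of_nonpos_of_nonpos (Mathlib.Tactic.Linarith.sub_nonpos_of_le (sq_nonneg s)) (le_of_lt (Mathlib.Tactic.Linarith.sub_neg_of_lt hy3)), mul_pos_of_neg_of_neg (Mathlib.Tactic.Linarith.sub_neg_of_lt hs1) (Mathlib.Tactic.Linarith.sub_neg_of_lt hs1), mul_pos_of_neg_of_neg (Mathlib.Tactic.Linarith.sub_neg_of_lt hs1) (Mathlib.Tactic.Linarith.sub_neg_of_lt hs2), mul_nonneg_of_nonpos_of_nonpos (le_of_lt (Mathlib.Tactic.Linarith.sub_neg_of_lt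 hs1)) (Mathlib.Tactic.Linarith.sub_nonpos_of_le hx1), Mathlib.Tactic.Linarith.mul_zero_eq (Mathlib.Tactic.Linarith.sub_neg_of_lt hs1) (sub_eq_zero_of_eq hy)]
    have : x ^ 2 ≤ 31 := by (refine le_of_not_gt fun h_nl => ?_; linarith only [h_nl, hs0, hx6, hs1, hs2, hx1, mul_pos_of_neg_of_neg (Mathlib.Tactic.Linarith.sub_neg_of_lt hs1) (Mathlib.Tactic.Linarith.sub_neg_of_lt hs1), mul_pos_of_neg_of_neg (Mathlib.Tactic.Linarith.sub_neg_of_lt hs1) (Mathlib.Tactic.Linarith.sub_neg_of_lt hs2), mul_pos_of_neg_of_neg (Mathlib.Tactic.Linarith.sub_neg_of_lt hs1) (Mathlib.Tactic.Linarith.sub_neg_of_lt h_nl), mul_pos_of_neg_of_neg (Mathlib.Tactic.Linarith.sub_neg_of_lt hs2) (Mathlib.Tactic.Linarith.sub_neg_of_lt h_nl), mul_nonneg_of_nonpos_of_nonpos (Mathlib.Tactic.Linarith.sub_nonpos_of_le hx1) (Mathlib.Tactic.Linarith.sub_nonpos_of_le hx6)])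
    have : y * T0 ≤ 700 := by
      rw [hT0]
      have h1 : y * y ≤ 9 := by (refine le_of_not_gt fun h_nl => ?_; linarith only [h_nl, hy, hy3, hs1, hs2, hx1, hy0, mul_pos_of_neg_of_neg (Mathlib.Tactic.Linarith.sub_neg_of_lt hs1) (Mathlib.Tactic.Linarith.sub_neg_of_lt hy3), mul_pos_of_neg_of_neg (Mathlib.Tactic.Linarith.sub_neg_of_lt hs1) (Mathlib.Tactic.Linarith.sub_neg_of_lt h_nl), mul_pos_of_neg_of_neg (Mathlib.Tactic.Linarith.sub_neg_of_lt hs2) (Mathlib.Tactic.Linarith.sub_neg_of_lt h_nl), mul_nonneg_of_nonpos_of_nonpos (Mathlib.Tactic.Linarith.sub_nonpos_of_le hx1) (le_of_lt (Mathlib.Tactic.Linarith.sub_neg_of_lt hy3)), Mathlib.Tactic.Linarith.zero_mul_eq (sub_eq_zero_of_eq hy) (Mathlib.Tactic.Linarith.sub_neg_of_lt hy0)])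
      linarith only [hs1, hs2, h1, this, mul_nonneg_of_nonpos_of_nonpos (Mathlib.Tactic.Linarith.sub_nonpos_of_le (mul_self_nonneg y)) (Mathlib.Tactic.Linarith.sub_nonpos_of_le this)]
    linarith only [this]
  push Not at hy3
  obtain ⟨n, hn1, hn2⟩ : ∃ n : ℕ, (n : ℝ) + 3 ≤ y ∧ y < n + 4 := by
    refine ⟨⌊y - 3⌋₊, ?_, ?_⟩
    · have := Nat.floor_le (show 0 ≤ y - 3 by linarith only [hy3]); linarith only [this]
    · have := Nat.lt_floor_add_one (y - 3); linarith only [this]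
  set T := ⌈T0⌉₊ with hT
  have hT1 : 1 ≤ T := Nat.ceil_pos.2 hT0pos
  have hTa : T0 ≤ T := Nat.le_ceil _
  have hTb : (T : ℝ) < T0 + 1 := Nat.ceil_lt_add_one hT0pos.le
  have hT1' : (1 : ℝ) ≤ T := by exact_mod_cast hT1
  obtain ⟨e, he⟩ : ∃ e : ℝ, e = (1 / 2) ^ n := ⟨_, rfl⟩
  have he0 : 0 < e := by rw [he]; positivity
  have he1 : e ≤ 1 := by rw [he]; exact pow_le_one₀ (by norm_num) (by norm_num)
  have key : ∀ N : ℕ, N0 ≤ N → (n + 1) * T ≤ N → y * T0 - 4 / 3 * T0 * e ≤ N := by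
    intro N h1 h2
    have hc := core h hT1 h1 h2
    rw [← he] at hc
    have hN : (0 : ℝ) ≤ N := by positivity
    have a1 : (N : ℝ) + ((T : ℝ) - 1) / 3 * ((1 + e) * (2 + e)) ≤
        N + T0 / 3 * (2 + 4 * e) := by
      have : ((T : ℝ) - 1) / 3 * ((1 + e) * (2 + e)) ≤ T0 / 3 * (2 + 4 * e) :=
        mul_le_mul (by linarith only [hTb]) (by (refine le_of_not_gt fun h_nl => ?_; linarith only [h_nl, hs1, hs2, he0, he1, mul_pos_of_neg_of_neg (Mathlib.Tactic.Linarith.sub_neg_of_lt hs1) (Mathlib.Tactic.Linarith.sub_neg_of_lt h_nl), mul_pos_of_neg_of_neg (Mathlib.Tactic.Linarith.sub_neg_of_lt hs2) (Mathlib.Tactic.Linarith.sub_neg_of_lt h_nl), mul_nonneg_of_nonpos_of_nonpos (le_of_lt (Mathlib.Tactic.Linarith.sub_neg_of_lt he0)) (Mathlib.Tactic.Linarith.sub_nonpos_of_le he1)])) (by positivity) (by positivity)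
      linarith only [this]
    have a2 : 1 + 4 / 3 * (k : ℝ) / T ≤ (3 * y + 2) / (3 * y) := by
      have : 4 / 3 * (k : ℝ) / T ≤ 4 / 3 * (k : ℝ) / T0 :=
        div_le_div_of_nonneg_left (by positivity) hT0pos hTa
      have e2 : 1 + 4 / 3 * (k : ℝ) / T0 = (3 * y + 2) / (3 * y) := by
        rw [hT0, hx2]
        have : (0 : ℝ) < k := by exact_mod_cast hk
        field_simp; ring
      linarith only [this, e2]
    have a3 : (k : ℝ) ^ 2 ≤ (3 * y + 2) / (3 * y) * (N + T0 / 3 * (2 + 4 * e)) := by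
      refine hc.trans (mul_le_mul a2 a1 ?_ (by positivity))
      have : 0 ≤ (T : ℝ) - 1 := by linarith only [hT1']
      positivity
    have a4 : (k : ℝ) ^ 2 = (3 * y + 2) / (3 * y) * (T0 * (y + 2 / 3)) := by
      have : x ^ 2 = 2 * (y + 2 / 3) ^ 2 := by rw [hy, ← hs0]; ring
      rw [← hx2, hT0]
      field_simp
      rw [this]; ring
    rw [a4] at a3
    have a5 := le_of_mul_le_mul_left a3 (by positivity)
    linarith only [a5]
  have herr : 4 / 3 * T0 * e ≤ 700 := by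
    have hx' : x ≤ 2 * y := by linarith only [hs0, hy, hy3, hy0, hs1, hs2, hx1, Mathlib.Tactic.Linarith.zero_mul_eq (sub_eq_zero_of_eq hs0) (Mathlib.Tactic.Linarith.sub_neg_of_lt hy0), mul_pos_of_neg_of_neg (Mathlib.Tactic.Linarith.sub_neg_of_lt hs1) (Mathlib.Tactic.Linarith.sub_neg_of_lt hs1), mul_pos_of_neg_of_neg (Mathlib.Tactic.Linarith.sub_neg_of_lt hs1) (Mathlib.Tactic.Linarith.sub_neg_of_lt hs2), mul_nonneg_of_nonpos_of_nonpos (le_of_lt (Mathlib.Tactic.Linarith.sub_neg_of_lt hs1)) (Mathlib.Tactic.Linarith.sub_nonpos_of_le hx1), Mathlib.Tactic.Linarith.mul_zero_eq (Mathlib.Tactic.Linarith.sub_neg_of_lt hs1) (sub_eq_zero_of_eq hy)]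
    have h1 : x ^ 2 ≤ 4 * y ^ 2 := by (refine le_of_not_gt fun h_nl => ?_; linarith only [h_nl, hs0, hy, hy3, hx', hs2, hs1, hx1, hy0, mul_nonneg_of_nonpos_of_nonpos (Mathlib.Tactic.Linarith.sub_nonpos_of_le (sq_nonneg y)) (le_of_lt (Mathlib.Tactic.Linarith.sub_neg_of_lt hs2)), mul_pos_of_neg_of_neg (Mathlib.Tactic.Linarith.sub_neg_of_lt hs1) (Mathlib.Tactic.Linarith.sub_neg_of_lt hs1), mul_pos_of_neg_of_neg (Mathlib.Tactic.Linarith.sub_neg_of_lt hs1) (Mathlib.Tactic.Linarith.sub_neg_of_lt hs2), mul_pos_of_neg_of_neg (Mathlib.Tactic.Linarith.sub_neg_of_lt hs1) (Mathlib.Tactic.Linarith.sub_neg_of_lt h_nl), mul_pos_of_neg_of_neg (Mathlib.Tactic.Linarith.sub_neg_of_lt hs2) (Mathlib.Tactic.Linarith.sub_neg_of_lt h_nl), mul_nonneg_of_nonpos_of_nonpos (Mathlib.Tactic.Linarith.sub_nonpos_of_le hx1) (Mathlib.Tactic.Linarith.sub_nonpos_of_le hy3), mul_nonneg_of_nonpos_of_nonpos (Mathlib.Tactic.Linarith.sub_nonpos_of_le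 hx1) (Mathlib.Tactic.Linarith.sub_nonpos_of_le hx'), Mathlib.Tactic.Linarith.zero_mul_eq (sub_eq_zero_of_eq hy) (Mathlib.Tactic.Linarith.sub_neg_of_lt hy0)])
    have h2 : T0 ≤ 8 * y ^ 3 := by rw [hT0]; (refine le_of_not_gt fun h_nl => ?_; linarith only [h_nl, hy, hs1, hs2, h1, hx1, Mathlib.Tactic.Linarith.mul_zero_eq (Mathlib.Tactic.Linarith.sub_nonpos_of_le (sq_nonneg y)) (sub_eq_zero_of_eq hy), Mathlib.Tactic.Linarith.mul_zero_eq (Mathlib.Tactic.Linarith.sub_nonpos_of_le (sq_nonneg x)) (sub_eq_zero_of_eq hy), mul_pos_of_neg_of_neg (Mathlib.Tactic.Linarith.sub_neg_of_lt hs1) (Mathlib.Tactic.Linarith.sub_neg_of_lt h_nl), mul_nonneg_of_nonpos_of_nonpos (le_of_lt (Mathlib.Tactic.Linarith.sub_neg_of_lt hs2)) (Mathlib.Tactic.Linarith.sub_nonpos_of_le h1), mul_pos_of_neg_of_neg (Mathlib.Tactic.Linarith.sub_neg_of_lt hs2) (Mathlib.Tactic.Linarith.sub_neg_of_lt h_nl), mul_nonneg_of_nonpos_of_nonpos (Mathlib.Tactic.Linarith.sub_nonpos_of_le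 hx1) (Mathlib.Tactic.Linarith.sub_nonpos_of_le h1)])
    have h3 : y ^ 3 ≤ ((n : ℝ) + 4) ^ 3 := pow_le_pow_left₀ hy0.le hn2.le 3
    have h4 := cube_le n
    have h5 : (2 : ℝ) ^ n * e = 1 := by rw [he, ← mul_pow]; norm_num
    have h6 : T0 * e ≤ 8 * (64 * 2 ^ n) * e := mul_le_mul_of_nonneg_right (by linarith only [h2, h3, h4]) he0.le
    have h7 : 8 * (64 * 2 ^ n) * e = 512 := by rw [mul_assoc, mul_assoc, h5]; norm_num
    linarith only [hs1, hs2, h5, h6]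
  by_cases hc : (n + 1) * T ≤ N0
  · have := key N0 le_rfl hc; linarith only [herr, this]
  · exfalso
    have h1 := key ((n + 1) * T) (by omega) le_rfl
    push_cast at h1
    have h2 : ((n : ℝ) + 1) * T ≤ (y - 2) * (T0 + 1) :=
      mul_le_mul (by linarith only [hn1]) hTb.le (by positivity) (by linarith only [hs1, hs2, hy3])
    have h3 : 2 * y ≤ T0 := by
      have h5 : 1 ≤ x ^ 2 := one_le_pow₀ hx1
      have := mul_le_mul_of_nonneg_right h5 hy0.le
      rw [hT0]; linarith only [this]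
    have h4 : T0 * e ≤ T0 := mul_le_of_le_one_right hT0pos.le he1
    have h5 : (y - 2) * (T0 + 1) = y * T0 - 2 * T0 + y - 2 := by ring
    linarith only [hs1, hs2, hy0, h1, h2, h3, h4]

theorem noCertificate_of_sidon {N : ℕ} {A : Finset ℕ} (hA : A ⊆ Icc 1 N)
    (hS : ∀ a ∈ A, ∀ b ∈ A, ∀ x ∈ A, ∀ y ∈ A, a + b = x + y →
      (a = x ∧ b = y) ∨ (a = y ∧ b = x)) : NoCertificate N A.card := by
  intro W hW
  refine ⟨A, hA, rfl, sum_le_sum fun d hd => ?_⟩
  have hd1 := (mem_Icc.1 hd).1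
  have : reps A d ≤ 1 := by
    rw [reps, card_le_one]
    intro a ha b hb
    simp only [mem_filter] at ha hb
    have := hS a ha.1 (b + d) hb.2 b hb.1 (a + d) ha.2 (by ring)
    omega
  have h1 : (reps A d : ℝ) ≤ 1 := by exact_mod_cast this
  linarith only [h1, hW, hW d, mul_nonneg_of_nonpos_of_nonpos (Mathlib.Tactic.Linarith.sub_nonpos_of_le h1) (Mathlib.Tactic.Linarith.sub_nonpos_of_le (hW d))]

end Pool.Agent.Work.MP_cb6c95_nt
end
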